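import Pool.Agent.Lib.MP_a7b2aa_an.RS.Main

/-!
Random signs: from the grid to the torus, final inequalities.
-/

set_option autoImplicit false
set_option linter.unusedSectionVars false

namespace Pool.Agent.MP_a7b2aa_an.RS

open Finset ZMod Filter Topology

variable {e : ℕ}

/-- the signed sum of the blocks -/
noncomputable def FF (m : ℕ) (c : (Fin (e + 3) → ℤ) → ℂ)
    (η : (Fin (e + 1) → Fin (m + 1)) → ℤˣ) (x : Fin (e + 3) → ℝ) : ℂ :=
  ∑ l ∈ Finset.Nat.antidiagonalTuple (e + 3) m, ((η (hd m l) : ℤ) : ℂ) *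
    blockPoly c (fun i => 2 * l i) x

theorem blockPoly_smul' {d : ℕ} (z : ℂ) (c : (Fin d → ℤ) → ℂ) (s : Fin d → ℕ) (x : Fin d → ℝ) :
    blockPoly (fun k => z * c k) s x = z * blockPoly c s x := by
  unfold blockPoly
  rw [Finset.mul_sum]
  refine Finset.sum_congr rfl fun k _ => ?_
  ring

theorem FF_smul (m : ℕ) (z : ℂ) (c : (Fin (e + 3) → ℤ) → ℂ)
    (η : (Fin (e + 1) → Fin (m + 1)) → ℤˣ) (x : Fin (e + 3) → ℝ) :
    FF m (fun k => z * c k) η x = z * FF m c η x := by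
  unfold FF
  rw [Finset.mul_sum]
  refine Finset.sum_congr rfl fun l _ => ?_
  rw [blockPoly_smul']
  ring

theorem grid_re (m L : ℕ) (hL : 2 * m + 4 ≤ L) (c : (Fin (e + 3) → ℤ) → ℂ)
    (B : ((Fin (e + 1) → Fin (m + 1)) → ℤˣ) → ℝ) (hB : ∀ η x, ‖FF m c η x‖ ≤ B η) :
    2 ^ (Fintype.card (Fin (e + 1) → Fin (m + 1))) * ∑ b : Fin (m + 1), Real.sqrt
      (∑ l ∈ (Finset.Nat.antidiagonalTuple (e + 3) m).filter (fun l => l 0 = (b : ℕ)),
        (∑ x : Fin (e + 3) → ZMod (2 ^ L), |(blockPoly c (fun i => 2 * l i) (gp L x)).re|) ^ 2) ≤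
      9000 * (((2 ^ L : ℕ) : ℝ)) ^ (e + 3) * ∑ η, B η := by
  set P : (Fin (e + 1) → Fin (m + 1)) → ℕ → (Fin (e + 3) → ZMod (2 ^ L)) → ℝ := fun σ t x =>
    if ∑ j, (σ j : ℕ) ≤ m then (blockPoly c (fun i => 2 * tup m σ t i) (gp L x)).re else 0 with hP
  have hspec : ∀ (i : Fin (e + 3)) (σ : Fin (e + 1) → Fin (m + 1)) (t : ℕ),
      Sp i (blk (2 * tup m σ t i) : Set ℤ) (fun x => ((P σ t x : ℝ) : ℂ)) := by
    intro i σ t
    by_cases h : ∑ j, (σ j : ℕ) ≤ m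
    · have h1 := (blockPoly_spec L c (fun i => 2 * tup m σ t i) i).re (fun a ha => blk_neg ha)
      refine (congrArg (Sp i (blk (2 * tup m σ t i) : Set ℤ)) ?_).mp h1
      funext x
      simp only [hP, if_pos h]
    · refine (congrArg (Sp i (blk (2 * tup m σ t i) : Set ℤ)) ?_).mp (Sp.zero i _)
      funext x
      simp only [hP, if_neg h, Complex.ofReal_zero]
  have hsum : ∀ (η : (Fin (e + 1) → Fin (m + 1)) → ℤˣ) (x : Fin (e + 3) → ZMod (2 ^ L)),
      ∑ σ, ((η σ : ℤ) : ℝ) * ∑ t ∈ range (m - ∑ j, (σ j : ℕ) + 1), P σ t x =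
        (FF m c η (gp L x)).re := by
    intro η x
    unfold FF
    rw [sum_antidiag, Complex.re_sum, Finset.sum_filter]
    refine Finset.sum_congr rfl fun σ _ => ?_
    split_ifs with h
    · rw [Complex.re_sum, Finset.mul_sum]
      refine Finset.sum_congr rfl fun t _ => ?_
      rw [hd_tup]
      simp only [hP, if_pos h]
      rw [show ((η σ : ℤ) : ℂ) = (((η σ : ℤ) : ℝ) : ℂ) by push_cast; rfl, Complex.re_ofReal_mul]
    · simp [hP, if_neg h]
  have h := grid_abs (i := (0 : Fin (e + 3))) (i₁ := Fin.castSucc (Fin.last (e + 1)))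
    (i₂ := Fin.last (e + 2)) (Fin.castSucc_lt_last _).ne m
    (by exact Nat.pow_le_pow_right (by norm_num) hL) (fun σ => σ 0)
    (fun σ : Fin (e + 1) → Fin (m + 1) => m - ∑ j, (σ j : ℕ)) (fun σ => Nat.sub_le _ _) P
    (fun σ t _ => by
      have h1 := hspec 0 σ t
      have h2 : tup m σ t 0 = σ 0 := tup_head σ t 0
      rwa [h2] at h1)
    (fun σ t _ => by
      have h1 := hspec (Fin.castSucc (Fin.last (e + 1))) σ t
      rwa [tup_mid] at h1)
    (fun σ t _ => by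
      have h1 := hspec (Fin.last (e + 2)) σ t
      rwa [tup_last] at h1) B
    (fun η x => by
      rw [hsum]
      exact (Complex.re_le_norm _).trans (hB η _))
    (fun η => (norm_nonneg _).trans (hB η 0))
  refine le_trans (le_of_eq ?_) h
  congr 1
  refine Finset.sum_congr rfl fun b _ => ?_
  congr 1
  rw [Finset.sum_filter, sum_antidiag, Finset.sum_filter, Finset.sum_filter]
  refine Finset.sum_congr rfl fun σ _ => ?_
  have h2 : ∀ t, tup m σ t 0 = σ 0 := fun t => tup_head σ t 0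
  simp only [h2]
  by_cases hb : σ 0 = b
  · rw [if_pos hb]
    split_ifs with h3 h4
    · refine Finset.sum_congr rfl fun t _ => ?_
      simp only [hP, if_pos h3]
    · exact absurd (congrArg Fin.val hb) h4
    · simp [hP, if_neg h3]
  · rw [if_neg hb]
    have h4 : ¬ ((σ 0 : Fin (m + 1)) : ℕ) = (b : ℕ) := fun h => hb (Fin.ext h)
    simp [h4]

theorem sqrt_add_le {α : Type*} (s : Finset α) (u v w : α → ℝ) (hu : ∀ a, 0 ≤ u a)
    (hv : ∀ a, 0 ≤ v a) (hw : ∀ a, 0 ≤ w a) (h : ∀ a ∈ s, w a ≤ u a + v a) :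
    Real.sqrt (∑ a ∈ s, w a ^ 2) ≤ Real.sqrt (∑ a ∈ s, u a ^ 2) + Real.sqrt (∑ a ∈ s, v a ^ 2) := by
  have hU : 0 ≤ ∑ a ∈ s, u a ^ 2 := Finset.sum_nonneg fun _ _ => sq_nonneg _
  have hV : 0 ≤ ∑ a ∈ s, v a ^ 2 := Finset.sum_nonneg fun _ _ => sq_nonneg _
  refine Real.sqrt_le_iff.mpr ⟨by positivity, ?_⟩
  have h1 : ∑ a ∈ s, w a ^ 2 ≤ ∑ a ∈ s, (u a + v a) ^ 2 := Finset.sum_le_sum fun a ha =>
    pow_le_pow_left₀ (hw a) (h a ha) 2
  refine h1.trans ?_
  have h2 : ∑ a ∈ s, (u a + v a) ^ 2 = ∑ a ∈ s, u a ^ 2 + 2 * ∑ a ∈ s, u a * v a +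
      ∑ a ∈ s, v a ^ 2 := by
    rw [Finset.mul_sum, ← Finset.sum_add_distrib, ← Finset.sum_add_distrib]
    refine Finset.sum_congr rfl fun a _ => ?_
    ring
  rw [h2, add_sq, Real.sq_sqrt hU, Real.sq_sqrt hV]
  have h3 : ∑ a ∈ s, u a * v a ≤ Real.sqrt (∑ a ∈ s, u a ^ 2) * Real.sqrt (∑ a ∈ s, v a ^ 2) :=
    Real.sum_mul_le_sqrt_mul_sqrt s u v
  nlinarith

theorem grid_norm (m L : ℕ) (hL : 2 * m + 4 ≤ L) (c : (Fin (e + 3) → ℤ) → ℂ)
    (B : ((Fin (e + 1) → Fin (m + 1)) → ℤˣ) → ℝ) (hB : ∀ η x, ‖FF m c η x‖ ≤ B η) :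
    2 ^ (Fintype.card (Fin (e + 1) → Fin (m + 1))) * ∑ b : Fin (m + 1), Real.sqrt
      (∑ l ∈ (Finset.Nat.antidiagonalTuple (e + 3) m).filter (fun l => l 0 = (b : ℕ)),
        (∑ x : Fin (e + 3) → ZMod (2 ^ L), ‖blockPoly c (fun i => 2 * l i) (gp L x)‖) ^ 2) ≤
      18000 * (((2 ^ L : ℕ) : ℝ)) ^ (e + 3) * ∑ η, B η := by
  have h1 := grid_re m L hL c B hB
  have h2 := grid_re m L hL (fun k => -Complex.I * c k) B (fun η x => by
    rw [FF_smul, norm_mul, norm_neg, Complex.norm_I, one_mul]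
    exact hB η x)
  have h3 : ∀ b ∈ (univ : Finset (Fin (m + 1))), Real.sqrt
      (∑ l ∈ (Finset.Nat.antidiagonalTuple (e + 3) m).filter (fun l => l 0 = (b : ℕ)),
        (∑ x : Fin (e + 3) → ZMod (2 ^ L), ‖blockPoly c (fun i => 2 * l i) (gp L x)‖) ^ 2) ≤
      Real.sqrt
      (∑ l ∈ (Finset.Nat.antidiagonalTuple (e + 3) m).filter (fun l => l 0 = (b : ℕ)),
        (∑ x : Fin (e + 3) → ZMod (2 ^ L), |(blockPoly c (fun i => 2 * l i) (gp L x)).re|) ^ 2) +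
      Real.sqrt
      (∑ l ∈ (Finset.Nat.antidiagonalTuple (e + 3) m).filter (fun l => l 0 = (b : ℕ)),
        (∑ x : Fin (e + 3) → ZMod (2 ^ L),
          |(blockPoly (fun k => -Complex.I * c k) (fun i => 2 * l i) (gp L x)).re|) ^ 2) := by
    intro b _
    refine sqrt_add_le _ _ _ _ (fun l => Finset.sum_nonneg fun _ _ => abs_nonneg _)
      (fun l => Finset.sum_nonneg fun _ _ => abs_nonneg _)
      (fun l => Finset.sum_nonneg fun _ _ => norm_nonneg _) fun l _ => ?_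
    rw [← Finset.sum_add_distrib]
    refine Finset.sum_le_sum fun x _ => ?_
    have h4 := Complex.norm_le_abs_re_add_abs_im (blockPoly c (fun i => 2 * l i) (gp L x))
    refine h4.trans (le_of_eq ?_)
    congr 2
    rw [blockPoly_smul']
    simp
  have h5 := Finset.sum_le_sum h3
  rw [Finset.sum_add_distrib] at h5
  have h6 : (0 : ℝ) ≤ 2 ^ (Fintype.card (Fin (e + 1) → Fin (m + 1))) := by positivity
  have h7 := mul_le_mul_of_nonneg_left h5 h6
  refine h7.trans ?_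
  linarith

theorem bdd_FF (m : ℕ) (c : (Fin (e + 3) → ℤ) → ℂ) (η : (Fin (e + 1) → Fin (m + 1)) → ℤˣ) :
    BddAbove (Set.range fun x : Fin (e + 3) → ℝ => ‖FF m c η x‖) := by
  refine ⟨∑ t ∈ Finset.Nat.antidiagonalTuple (e + 3) m,
    ∑ k ∈ Fintype.piFinset (fun j => blk (2 * t j)), ‖c k‖, ?_⟩
  rintro _ ⟨x, rfl⟩
  simp only [FF]
  refine (norm_sum_le _ _).trans (sum_le_sum fun t _ => ?_)
  rw [norm_mul]
  have h1 : ‖((η (hd m t) : ℤ) : ℂ)‖ = 1 := by
    rcases Int.units_eq_one_or (η (hd m t)) with h | h <;> rw [h] <;> simp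
  rw [h1, one_mul]
  unfold blockPoly
  refine (norm_sum_le _ _).trans (sum_le_sum fun k _ => ?_)
  rw [norm_mul]
  have : ‖Complex.exp (Complex.I * ∑ j : Fin (e + 3), ((((k j : ℝ) * x j : ℝ)) : ℂ))‖ = 1 := by
    rw [mul_comm, ← Complex.ofReal_sum]
    exact Complex.norm_exp_ofReal_mul_I _
  rw [this, mul_one]

theorem continuous_block {d : ℕ} (c : (Fin d → ℤ) → ℂ) (s : Fin d → ℕ) :
    Continuous (blockPoly c s) := by
  unfold blockPoly
  refine continuous_finsetSum _ fun k _ => ?_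
  refine continuous_const.mul (Complex.continuous_exp.comp (continuous_const.mul ?_))
  refine continuous_finsetSum _ fun j _ => ?_
  exact Complex.continuous_ofReal.comp (continuous_const.mul (continuous_apply j))

/-- the normalised `L ^ 1` norm -/
noncomputable def nrm {d : ℕ} (F : (Fin d → ℝ) → ℂ) : ℝ :=
  (1 / (2 * Real.pi)) ^ d *
    ∫ x in Set.pi Set.univ (fun _ : Fin d => Set.Icc (0 : ℝ) (2 * Real.pi)), ‖F x‖

/-- the mean of the sup norms over all signs -/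
noncomputable def EE (m : ℕ) (c : (Fin (e + 3) → ℤ) → ℂ) : ℝ :=
  (∑ η : (Fin (e + 1) → Fin (m + 1)) → ℤˣ, ⨆ x, ‖FF m c η x‖) /
    2 ^ (Fintype.card (Fin (e + 1) → Fin (m + 1)))

theorem torus_l2 (m : ℕ) (c : (Fin (e + 3) → ℤ) → ℂ) :
    ∑ b : Fin (m + 1), Real.sqrt
      (∑ l ∈ (Finset.Nat.antidiagonalTuple (e + 3) m).filter (fun l => l 0 = (b : ℕ)),
        nrm (blockPoly c (fun i => 2 * l i)) ^ 2) ≤ 18000 * EE m c := by
  have hlim : Tendsto (fun L : ℕ => ∑ b : Fin (m + 1), Real.sqrt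
      (∑ l ∈ (Finset.Nat.antidiagonalTuple (e + 3) m).filter (fun l => l 0 = (b : ℕ)),
        ((∑ x : Fin (e + 3) → ZMod (2 ^ L), ‖blockPoly c (fun i => 2 * l i) (gp L x)‖) /
          ((2 : ℝ) ^ L) ^ (e + 3)) ^ 2)) atTop
      (𝓝 (∑ b : Fin (m + 1), Real.sqrt
      (∑ l ∈ (Finset.Nat.antidiagonalTuple (e + 3) m).filter (fun l => l 0 = (b : ℕ)),
        nrm (blockPoly c (fun i => 2 * l i)) ^ 2))) := by
    refine tendsto_finsetSum _ fun b _ => ?_
    refine (Real.continuous_sqrt.tendsto _).comp ?_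
    refine tendsto_finsetSum _ fun l _ => ?_
    exact (tendsto_grid (fun x => ‖blockPoly c (fun i => 2 * l i) x‖)
      (continuous_block _ _).norm).pow 2
  refine le_of_tendsto hlim ?_
  filter_upwards [eventually_ge_atTop (2 * m + 4)] with L hL
  have h := grid_norm m L hL c (fun η => ⨆ x, ‖FF m c η x‖)
    (fun η x => le_ciSup (bdd_FF m c η) x)
  have hN : (0 : ℝ) < ((2 : ℝ) ^ L) ^ (e + 3) := by positivity
  have hK : (0 : ℝ) < 2 ^ (Fintype.card (Fin (e + 1) → Fin (m + 1))) := by positivity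
  have h1 : ∀ b : Fin (m + 1), Real.sqrt
      (∑ l ∈ (Finset.Nat.antidiagonalTuple (e + 3) m).filter (fun l => l 0 = (b : ℕ)),
        ((∑ x : Fin (e + 3) → ZMod (2 ^ L), ‖blockPoly c (fun i => 2 * l i) (gp L x)‖) /
          ((2 : ℝ) ^ L) ^ (e + 3)) ^ 2) = Real.sqrt
      (∑ l ∈ (Finset.Nat.antidiagonalTuple (e + 3) m).filter (fun l => l 0 = (b : ℕ)),
        (∑ x : Fin (e + 3) → ZMod (2 ^ L), ‖blockPoly c (fun i => 2 * l i) (gp L x)‖) ^ 2) /
          ((2 : ℝ) ^ L) ^ (e + 3) := by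
    intro b
    simp_rw [div_pow]
    rw [← Finset.sum_div, Real.sqrt_div' _ (by positivity), Real.sqrt_sq hN.le]
  rw [Finset.sum_congr rfl fun b _ => h1 b, ← Finset.sum_div, div_le_iff₀ hN]
  unfold EE
  rw [mul_div_assoc', div_mul_eq_mul_div, le_div_iff₀ hK]
  push_cast at h
  linarith

end Pool.Agent.MP_a7b2aa_an.RS
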