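import Pool.Agent.Lib.MP_a7b2aa_an.RS.Slices

/-!
The inequality on the grid, in an abstract form.
-/

set_option autoImplicit false
set_option linter.unusedSectionVars false

namespace Pool.Agent.MP_a7b2aa_an.RS

open Finset ZMod

variable {d N : ℕ} [NeZero N] {κ : Type} [Fintype κ] [DecidableEq κ]

theorem sum_three (n : ℕ) (f : ℕ → ℝ) : ∑ t ∈ range n, f t =
    ∑ r ∈ range 3, ∑ t ∈ (range n).filter (fun t => t % 3 = r), f t := by
  rw [Finset.sum_fiberwise_of_maps_to (g := fun t => t % 3)]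
  intro t _
  exact mem_range.mpr (Nat.mod_lt _ (by norm_num))

theorem sum_three_fin (n : ℕ) (f : Fin n → ℝ) : ∑ t, f t =
    ∑ r ∈ range 3, ∑ t ∈ univ.filter (fun t : Fin n => (t : ℕ) % 3 = r), f t := by
  rw [Finset.sum_fiberwise_of_maps_to (g := fun t : Fin n => (t : ℕ) % 3)]
  intro t _
  exact mem_range.mpr (Nat.mod_lt _ (by norm_num))

/-- The `l ^ 2` sum over a slice is controlled by the signed sums. -/
theorem slice_l2 (s : Finset κ) (G : κ → (Fin d → ZMod N) → ℝ) :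
    2 ^ (Fintype.card κ) * Real.sqrt (∑ k ∈ s, (∑ x, |G k x|) ^ 2) ≤
      2 * ∑ e : κ → ℤˣ, ∑ x, |∑ k ∈ s, ((e k : ℤ) : ℝ) * G k x| := by
  have hpos : (0 : ℝ) < 2 ^ (Fintype.card κ) := by positivity
  have h := l2_le_of_forall s (fun k => ∑ x, |G k x|)
    ((2 * ∑ e : κ → ℤˣ, ∑ x, |∑ k ∈ s, ((e k : ℤ) : ℝ) * G k x|) / 2 ^ (Fintype.card κ))
    (by positivity) (fun l hl => by
      rw [le_div_iff₀ hpos, mul_comm]
      have h1 : ∑ k ∈ s, l k * ∑ x, |G k x| = ∑ x, ∑ k ∈ s, l k * |G k x| := by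
        rw [Finset.sum_comm]
        exact Finset.sum_congr rfl fun k _ => Finset.mul_sum _ _ _
      rw [h1, Finset.mul_sum]
      have h2 : ∑ e : κ → ℤˣ, ∑ x, |∑ k ∈ s, ((e k : ℤ) : ℝ) * G k x| =
          ∑ x, ∑ e : κ → ℤˣ, |∑ k ∈ s, ((e k : ℤ) : ℝ) * G k x| := Finset.sum_comm
      rw [h2, Finset.mul_sum]
      exact Finset.sum_le_sum fun x _ => khinchin s (fun k => G k x) l hl)
  rw [le_div_iff₀ hpos] at h
  linarith

theorem grid_abs {i i₁ i₂ : Fin d} (h12 : i₁ ≠ i₂) (m : ℕ) (hN : 2 ^ (2 * m + 4) ≤ N)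
    (a : κ → Fin (m + 1)) (M : κ → ℕ) (hM : ∀ k, M k ≤ m)
    (P : κ → ℕ → (Fin d → ZMod N) → ℝ)
    (hP0 : ∀ k t, t ≤ M k → Sp i (blk (2 * (a k : ℕ)) : Set ℤ) (fun x => ((P k t x : ℝ) : ℂ)))
    (hP1 : ∀ k t, t ≤ M k → Sp i₁ (blk (2 * t) : Set ℤ) (fun x => ((P k t x : ℝ) : ℂ)))
    (hP2 : ∀ k t, t ≤ M k → Sp i₂ (blk (2 * (M k - t)) : Set ℤ) (fun x => ((P k t x : ℝ) : ℂ)))
    (B : (κ → ℤˣ) → ℝ)
    (hB : ∀ e x, ∑ k, ((e k : ℤ) : ℝ) * ∑ t ∈ range (M k + 1), P k t x ≤ B e)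
    (hB0 : ∀ e, 0 ≤ B e) :
    2 ^ (Fintype.card κ) * ∑ b : Fin (m + 1), Real.sqrt (∑ k ∈ univ.filter (fun k => a k = b),
      ∑ t ∈ range (M k + 1), (∑ x, |P k t x|) ^ 2) ≤
      9000 * (N : ℝ) ^ d * ∑ e : κ → ℤˣ, B e := by
  set G : κ → (Fin d → ZMod N) → ℝ := fun k x => ∑ t ∈ range (M k + 1), P k t x with hG
  have hGs : ∀ k, Sp i (blk (2 * (a k : ℕ)) : Set ℤ) (fun x => ((G k x : ℝ) : ℂ)) := by
    intro k
    have h := Sp.sum (i := i) (A := (blk (2 * (a k : ℕ)) : Set ℤ)) (range (M k + 1))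
      (fun t x => ((P k t x : ℝ) : ℂ)) (fun t ht => hP0 k t (by
        rw [mem_range] at ht
        omega))
    refine (congrArg (Sp i (blk (2 * (a k : ℕ)) : Set ℤ)) ?_).mp h
    funext x
    simp only [hG]
    push_cast
    rfl
  -- the layers
  have hlayer : ∀ k, ∑ t ∈ range (M k + 1), (∑ x, |P k t x|) ^ 2 ≤
      (125 * ∑ x, |G k x|) ^ 2 := by
    intro k
    have h1 : ∀ r ∈ range 3, ∑ t ∈ (range (M k + 1)).filter (fun t => t % 3 = r),
        (∑ x, |P k t x|) ^ 2 ≤ (72 * ∑ x, |G k x|) ^ 2 := by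
      intro r _
      have h2 := layer_l1 (i := i₁) (j := i₂) h12 m (M k) (hM k) hN (P k) (hP1 k) (hP2 k)
        ((range (M k + 1)).filter (fun t => t % 3 = r)) (by
          intro u hu v hv huv
          rw [mem_filter] at hu hv
          omega) (by
          intro u hu
          rw [mem_filter, mem_range] at hu
          omega)
      have h3 : 0 ≤ ∑ t ∈ (range (M k + 1)).filter (fun t => t % 3 = r),
          (∑ x, |P k t x|) ^ 2 := Finset.sum_nonneg fun _ _ => sq_nonneg _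
      rw [← Real.sq_sqrt h3]
      exact pow_le_pow_left₀ (Real.sqrt_nonneg _) h2 2
    rw [sum_three]
    refine (Finset.sum_le_sum h1).trans ?_
    rw [Finset.sum_const, card_range, nsmul_eq_mul, mul_pow, mul_pow]
    push_cast
    nlinarith [sq_nonneg (∑ x, |G k x|)]
  have hslice : ∀ b : Fin (m + 1), Real.sqrt (∑ k ∈ univ.filter (fun k => a k = b),
      ∑ t ∈ range (M k + 1), (∑ x, |P k t x|) ^ 2) ≤
      125 * Real.sqrt (∑ k ∈ univ.filter (fun k => a k = b), (∑ x, |G k x|) ^ 2) := by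
    intro b
    have h1 : ∑ k ∈ univ.filter (fun k => a k = b), ∑ t ∈ range (M k + 1), (∑ x, |P k t x|) ^ 2 ≤
        125 ^ 2 * ∑ k ∈ univ.filter (fun k => a k = b), (∑ x, |G k x|) ^ 2 := by
      rw [Finset.mul_sum]
      refine Finset.sum_le_sum fun k _ => (hlayer k).trans (le_of_eq ?_)
      rw [mul_pow]
    refine (Real.sqrt_le_sqrt h1).trans (le_of_eq ?_)
    rw [Real.sqrt_mul (by norm_num), Real.sqrt_sq (by norm_num)]
  have hclass : ∀ r ∈ range 3, ∑ b ∈ univ.filter (fun b : Fin (m + 1) => (b : ℕ) % 3 = r),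
      2 ^ (Fintype.card κ) * Real.sqrt (∑ k ∈ univ.filter (fun k => a k = b),
        (∑ x, |G k x|) ^ 2) ≤ 24 * (N : ℝ) ^ d * ∑ e : κ → ℤˣ, B e := by
    intro r _
    refine (Finset.sum_le_sum fun b _ => slice_l2 (univ.filter (fun k => a k = b)) G).trans ?_
    have h2 := slices (i := i) m hN (univ.filter (fun b : Fin (m + 1) => (b : ℕ) % 3 = r)) (by
        intro u hu v hv huv
        rw [mem_filter] at hu hv
        omega) a G hGs B hB hB0
    rw [← Finset.mul_sum]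
    have h3 : ∑ b ∈ univ.filter (fun b : Fin (m + 1) => (b : ℕ) % 3 = r), ∑ e : κ → ℤˣ,
        ∑ x, |∑ k ∈ univ.filter (fun k => a k = b), ((e k : ℤ) : ℝ) * G k x| =
        ∑ e : κ → ℤˣ, ∑ b ∈ univ.filter (fun b : Fin (m + 1) => (b : ℕ) % 3 = r),
        ∑ x, |∑ k ∈ univ.filter (fun k => a k = b), ((e k : ℤ) : ℝ) * G k x| := Finset.sum_comm
    rw [h3]
    linarith
  have hall := Finset.sum_le_sum hclass
  rw [← sum_three_fin (m + 1) (fun b => 2 ^ (Fintype.card κ) * Real.sqrt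
    (∑ k ∈ univ.filter (fun k => a k = b), (∑ x, |G k x|) ^ 2)), Finset.sum_const, card_range,
    nsmul_eq_mul] at hall
  rw [Finset.mul_sum]
  have hfin : ∀ b ∈ (univ : Finset (Fin (m + 1))), 2 ^ (Fintype.card κ) *
      Real.sqrt (∑ k ∈ univ.filter (fun k => a k = b),
      ∑ t ∈ range (M k + 1), (∑ x, |P k t x|) ^ 2) ≤ 125 * (2 ^ (Fintype.card κ) *
      Real.sqrt (∑ k ∈ univ.filter (fun k => a k = b), (∑ x, |G k x|) ^ 2)) := by
    intro b _
    have h1 : (0 : ℝ) ≤ 2 ^ (Fintype.card κ) := by positivity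
    have := mul_le_mul_of_nonneg_left (hslice b) h1
    linarith
  refine (Finset.sum_le_sum hfin).trans ?_
  rw [← Finset.mul_sum]
  push_cast at hall
  linarith

end Pool.Agent.MP_a7b2aa_an.RS
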