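import Pool.Agent.Lib.MP_a7b2aa_an.RS.Spec

/-!
The block kernels including the block of the frequency zero, and their spectra.
-/

set_option autoImplicit false

namespace Pool.Agent.MP_a7b2aa_an.RS

open Finset ZMod

variable {d N : ℕ} [NeZero N]

/-- The block kernel; for `s = 0` it is the mean. -/
noncomputable def kf (N : ℕ) [NeZero N] (s : ℕ) (y : ZMod N) : ℝ := if s = 0 then 1 else vk s y

/-- The spectrum of the block kernel. -/
def SS (s : ℕ) : Set ℤ :=
  {k | if s = 0 then k = 0 else 2 ^ (s - 2) < k.natAbs ∧ k.natAbs < 2 ^ (s + 1)}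

theorem kf_neg (s : ℕ) (y : ZMod N) : kf N s (-y) = kf N s y := by
  unfold kf
  split_ifs
  · rfl
  · exact vk_neg s y

theorem sum_abs_kf (s : ℕ) (hN : 2 * 2 ^ s ≤ N) : ∑ y : ZMod N, |kf N s y| ≤ 6 * N := by
  unfold kf
  split_ifs with h
  · simp only [abs_one, sum_const, card_univ, ZMod.card, nsmul_eq_mul, mul_one]
    have : (0 : ℝ) ≤ N := Nat.cast_nonneg _
    linarith
  · exact sum_abs_vk s hN

theorem sum_psi_int (k : ℤ) (hk : k ≠ 0) (hN : k.natAbs < N) :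
    ∑ y : ZMod N, (stdAddChar ((k : ZMod N) * y) : ℂ) = 0 := by
  rw [sum_psi, if_neg]
  rw [ZMod.intCast_zmod_eq_zero_iff_dvd]
  intro hdvd
  apply hk
  refine Int.eq_zero_of_abs_lt_dvd hdvd ?_
  rw [Int.abs_eq_natAbs]
  exact_mod_cast hN

theorem kf_spec (i : Fin d) (s : ℕ) (hs : s = 0 ∨ 2 ≤ s) (hN : 2 ^ (s + 2) ≤ N)
    (f : (Fin d → ZMod N) → ℝ) : Sp i (SS s) (fun x => ((T i (kf N s) f x : ℝ) : ℂ)) := by
  refine T_spec i (kf N s) (kf_neg s) f (SS s) fun k hk1 hk2 => ?_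
  have e1 : 2 ^ (s + 2) = 4 * 2 ^ s := by ring
  have e2 : 2 ^ (s + 1) = 2 * 2 ^ s := by ring
  have e0 : 1 ≤ 2 ^ s := Nat.one_le_two_pow
  by_cases h0 : s = 0
  · subst h0
    unfold kf
    simp only [if_true, Complex.ofReal_one, one_mul]
    simp only [SS, if_true, Set.mem_ofPred_eq] at hk2
    exact sum_psi_int k hk2 (by omega)
  · have hs2 : 2 ≤ s := by omega
    unfold kf
    simp only [if_neg h0]
    simp only [SS, if_neg h0, Set.mem_ofPred_eq, not_and, not_lt] at hk2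
    obtain ⟨r, rfl⟩ : ∃ r, s = r + 2 := ⟨s - 2, by omega⟩
    rw [show r + 2 - 2 = r by omega] at hk2
    have e3 : ∀ y : ZMod N, (vk (r + 2) y : ℂ) * stdAddChar ((k : ZMod N) * y) =
        (vp (2 ^ (r + 2)) y : ℂ) * stdAddChar ((k : ZMod N) * y) -
          (vp (2 ^ r) y : ℂ) * stdAddChar ((k : ZMod N) * y) := by
      intro y; unfold vk; rw [show r + 2 - 2 = r by omega]; push_cast; ring
    simp_rw [e3]
    rw [Finset.sum_sub_distrib]
    have e4 : 2 ^ (r + 2) = 4 * 2 ^ r := by ring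
    have e5 : 1 ≤ 2 ^ r := Nat.one_le_two_pow
    by_cases h1 : 2 ^ r < k.natAbs
    · have h2 := hk2 h1
      rw [hat_vp_zero _ Nat.one_le_two_pow k (by omega) (by omega),
        hat_vp_zero _ Nat.one_le_two_pow k (by omega) (by omega), sub_self]
    · push Not at h1
      rw [hat_vp_one _ Nat.one_le_two_pow k (by omega) (by omega),
        hat_vp_one _ Nat.one_le_two_pow k (by omega) (by omega), sub_self]

theorem kf_hat (s t : ℕ) (hs2 : 2 ∣ s) (ht2 : 2 ∣ t) (k : ℤ) (hk : k ∈ blk t)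
    (hN : 2 ^ t + 2 * 2 ^ s ≤ N) :
    ∑ y : ZMod N, (kf N s y : ℂ) * stdAddChar ((k : ZMod N) * y) =
      N * ((if t = s then (1 : ℝ) else 0 : ℝ) : ℂ) := by
  by_cases h0 : s = 0
  · subst h0
    unfold kf
    simp only [if_true, Complex.ofReal_one, one_mul]
    obtain ⟨h1, h2⟩ := mem_blk hk
    by_cases ht : t = 0
    · subst ht
      have hk0 : k = 0 := by
        rw [pow_zero] at h2
        omega
      subst hk0
      simp
    · rw [if_neg ht, Complex.ofReal_zero, mul_zero]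
      have h3 : 2 ^ t ≠ 1 := by
        intro h
        exact ht (by simpa using h)
      have h4 : 2 ≤ 2 ^ t := by
        have : 1 ≤ 2 ^ t := Nat.one_le_two_pow
        omega
      refine sum_psi_int k ?_ (by omega)
      intro hk0
      subst hk0
      simp only [Int.natAbs_zero] at h1
      omega
  · unfold kf
    simp only [if_neg h0]
    rw [hat_vk s t (by omega) hs2 ht2 k hk hN]
    split_ifs <;> simp

/-- Reproducing property. -/
theorem kf_self {i : Fin d} {s : ℕ} (hs2 : 2 ∣ s) (hN : 2 ^ (s + 2) ≤ N)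
    {f : (Fin d → ZMod N) → ℝ} (hf : Sp i (blk s : Set ℤ) (fun x => ((f x : ℝ) : ℂ)))
    (x : Fin d → ZMod N) : T i (kf N s) f x = f x := by
  have e1 : 2 ^ (s + 2) = 4 * 2 ^ s := by ring
  have h := T_eigen hf (kf N s) (kf_neg s) 1 (fun a ha => by
    have := kf_hat (N := N) s s hs2 hs2 a ha (by omega)
    rwa [if_pos rfl] at this) x
  rw [h, one_mul]

/-- Orthogonality of different even blocks. -/
theorem kf_other {i : Fin d} {s t : ℕ} (hst : t ≠ s) (hs2 : 2 ∣ s) (ht2 : 2 ∣ t)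
    (hN : 2 ^ t + 2 * 2 ^ s ≤ N)
    {f : (Fin d → ZMod N) → ℝ} (hf : Sp i (blk t : Set ℤ) (fun x => ((f x : ℝ) : ℂ)))
    (x : Fin d → ZMod N) : T i (kf N s) f x = 0 := by
  have h := T_eigen hf (kf N s) (kf_neg s) 0 (fun a ha => by
    have := kf_hat (N := N) s t hs2 ht2 a ha hN
    rwa [if_neg hst] at this) x
  rw [h, zero_mul]

theorem blk_neg {s : ℕ} {k : ℤ} (h : k ∈ (blk s : Set ℤ)) : -k ∈ (blk s : Set ℤ) := by
  simp only [blk, coe_filter, mem_Ioo, Set.mem_ofPred_eq, abs_neg] at h ⊢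
  omega

/-- low frequencies -/
def Lo (B : ℕ) : Set ℤ := {k | k.natAbs < B}

theorem SS_sub_Lo (s : ℕ) : SS s ⊆ Lo (2 ^ (s + 1)) := by
  intro k hk
  simp only [SS, Lo, Set.mem_ofPred_eq] at hk ⊢
  split_ifs at hk with h
  · subst hk
    simp
  · exact hk.2

theorem blk_sub_Lo (s : ℕ) : (blk s : Set ℤ) ⊆ Lo (2 ^ s) := by
  intro k hk
  exact (mem_blk (Finset.mem_coe.mp hk)).2

/-- a high frequency factor times a low frequency factor has mean zero -/
theorem sum_high_low {i : Fin d} {s B : ℕ} (hs : s ≠ 0) (hB : B ≤ 2 ^ (s - 2))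
    (hN : 2 ^ (s + 2) ≤ N) {f g : (Fin d → ZMod N) → ℂ} (hf : Sp i (SS s) f)
    (hg : Sp i (Lo (B + 1)) g) : ∑ x, f x * g x = 0 := by
  have e1 : 2 ^ (s + 2) = 4 * 2 ^ s := by ring
  have e2 : 2 ^ (s + 1) = 2 * 2 ^ s := by ring
  have e3 : 2 ^ (s - 2) ≤ 2 ^ s := Nat.pow_le_pow_right (by norm_num) (by omega)
  refine (hf.mul hg (C := {k | k ≠ 0 ∧ k.natAbs < N}) ?_).sum_eq_zero fun a ha => ha
  intro a ha b hb
  simp only [SS, if_neg hs, Lo, Set.mem_ofPred_eq] at ha hb ⊢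
  constructor
  · intro h
    omega
  · omega

end Pool.Agent.MP_a7b2aa_an.RS
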