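import Pool.Agent.Lib.MP_a7b2aa_an.RS.Riesz

/-!
The `L ^ 1` norm of a sum over a layer in two variables.
-/

set_option autoImplicit false
set_option linter.unusedSectionVars false

namespace Pool.Agent.MP_a7b2aa_an.RS

open Finset ZMod

variable {d N : ℕ} [NeZero N]

theorem T_comm {i j : Fin d} (hij : i ≠ j) (v w : ZMod N → ℝ) (f : (Fin d → ZMod N) → ℝ)
    (x : Fin d → ZMod N) : T i v (T j w f) x = T j w (T i v f) x := by
  unfold T
  simp_rw [Function.update_of_ne hij.symm, Function.update_of_ne hij, mul_div_assoc', Finset.mul_sum,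
    ← Finset.sum_div]
  rw [Finset.sum_comm]
  congr 2
  refine Finset.sum_congr rfl fun z _ => Finset.sum_congr rfl fun y _ => ?_
  rw [Function.update_comm hij]
  ring

/-- the sign function -/
noncomputable def sgn (f : (Fin d → ZMod N) → ℝ) (x : Fin d → ZMod N) : ℝ :=
  SignType.sign (f x)

theorem abs_sgn_le (f : (Fin d → ZMod N) → ℝ) (x : Fin d → ZMod N) : |sgn f x| ≤ 1 := by
  unfold sgn
  rcases lt_trichotomy (f x) 0 with h | h | h
  · simp [sign_neg h]
  · simp [h]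
  · simp [sign_pos h]

theorem mul_sgn (f : (Fin d → ZMod N) → ℝ) (x : Fin d → ZMod N) : f x * sgn f x = |f x| := by
  unfold sgn
  rw [mul_comm]
  exact sign_mul_self (f x)

/-- The dual function of a block in two variables. -/
noncomputable def dual2 (i j : Fin d) (s t : ℕ) (f : (Fin d → ZMod N) → ℝ) (x : Fin d → ZMod N) :
    ℝ := (1 / 36) * T i (kf N s) (T j (kf N t) (sgn f)) x

theorem abs_dual2_le (i j : Fin d) (s t : ℕ) (hs : 2 * 2 ^ s ≤ N) (ht : 2 * 2 ^ t ≤ N)
    (f : (Fin d → ZMod N) → ℝ) (x : Fin d → ZMod N) : |dual2 i j s t f x| ≤ 1 := by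
  unfold dual2
  have h1 := T_bound j (kf N t) 6 (sum_abs_kf t ht) (sgn f) 1 (abs_sgn_le f)
  have h2 := T_bound i (kf N s) 6 (sum_abs_kf s hs) (T j (kf N t) (sgn f)) (6 * 1) h1 x
  rw [abs_mul, abs_of_pos (by norm_num : (0 : ℝ) < 1 / 36)]
  linarith

theorem T_smul (i : Fin d) (v : ZMod N → ℝ) (c : ℝ) (f : (Fin d → ZMod N) → ℝ)
    (x : Fin d → ZMod N) : T i v (fun y => c * f y) x = c * T i v f x := by
  unfold T
  rw [mul_div_assoc', Finset.mul_sum]
  congr 1
  refine Finset.sum_congr rfl fun z _ => ?_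
  ring

theorem dual2_spec_left (i j : Fin d) (s t : ℕ) (hs : s = 0 ∨ 2 ≤ s) (hN : 2 ^ (s + 2) ≤ N)
    (f : (Fin d → ZMod N) → ℝ) : Sp i (SS s) (fun x => ((dual2 i j s t f x : ℝ) : ℂ)) := by
  have h := (kf_spec i s hs hN (T j (kf N t) (sgn f))).smul ((1 / 36 : ℝ) : ℂ)
  refine (congrArg (Sp i (SS s)) ?_).mp h
  funext x
  unfold dual2
  push_cast
  ring

theorem dual2_spec_right (i j : Fin d) (hij : i ≠ j) (s t : ℕ) (ht : t = 0 ∨ 2 ≤ t)
    (hN : 2 ^ (t + 2) ≤ N)
    (f : (Fin d → ZMod N) → ℝ) : Sp j (SS t) (fun x => ((dual2 i j s t f x : ℝ) : ℂ)) := by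
  have h := (kf_spec j t ht hN (T i (kf N s) (sgn f))).smul ((1 / 36 : ℝ) : ℂ)
  refine (congrArg (Sp j (SS t)) ?_).mp h
  funext x
  unfold dual2
  rw [T_comm hij]
  push_cast
  ring

/-- the pairing of a dual function -/
theorem dual2_pair (i j : Fin d) (s t : ℕ) (f g : (Fin d → ZMod N) → ℝ) :
    ∑ x, g x * dual2 i j s t f x = (1 / 36) * ∑ x, T j (kf N t) (T i (kf N s) g) x * sgn f x := by
  unfold dual2
  have h1 : ∀ x, g x * ((1 / 36) * T i (kf N s) (T j (kf N t) (sgn f)) x) =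
      (1 / 36) * (g x * T i (kf N s) (T j (kf N t) (sgn f)) x) := fun x => by ring
  simp_rw [h1]
  rw [← Finset.mul_sum, T_adj i (kf N s) (kf_neg s), T_adj j (kf N t) (kf_neg t)]

theorem dual2_self (i j : Fin d) {s t : ℕ} (hs2 : 2 ∣ s) (ht2 : 2 ∣ t) (hNs : 2 ^ (s + 2) ≤ N)
    (hNt : 2 ^ (t + 2) ≤ N) {f : (Fin d → ZMod N) → ℝ}
    (hi : Sp i (blk s : Set ℤ) (fun x => ((f x : ℝ) : ℂ)))
    (hj : Sp j (blk t : Set ℤ) (fun x => ((f x : ℝ) : ℂ))) :
    ∑ x, f x * dual2 i j s t f x = (1 / 36) * ∑ x, |f x| := by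
  rw [dual2_pair]
  congr 1
  refine Finset.sum_congr rfl fun x _ => ?_
  have h1 : T i (kf N s) f = f := funext fun y => kf_self hs2 hNs hi y
  rw [h1, kf_self ht2 hNt hj, mul_sgn]

theorem dual2_other (i j : Fin d) {s t s' : ℕ} (hss : s' ≠ s) (hs2 : 2 ∣ s) (hs2' : 2 ∣ s')
    (hN : 2 ^ s' + 2 * 2 ^ s ≤ N) {f g : (Fin d → ZMod N) → ℝ}
    (hi : Sp i (blk s' : Set ℤ) (fun x => ((g x : ℝ) : ℂ))) :
    ∑ x, g x * dual2 i j s t f x = 0 := by
  rw [dual2_pair]
  have h1 : T i (kf N s) g = fun _ => 0 := funext fun y => kf_other hss hs2 hs2' hN hi y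
  rw [h1]
  have h2 : ∀ x : Fin d → ZMod N, T j (kf N t) (fun _ => (0 : ℝ)) x = 0 := by
    intro x
    unfold T
    simp
  simp [h2]

/-- expansion of a Riesz product up to first order, when the higher order terms do not
contribute -/
theorem expand_first {α : Type*} [DecidableEq α] (S : Finset α) (l : α → ℂ)
    (e : α → (Fin d → ZMod N) → ℂ) (G : (Fin d → ZMod N) → ℂ)
    (h : ∀ V ⊆ S, 2 ≤ V.card → ∑ x, G x * ∏ t ∈ V, e t x = 0) :
    ∑ x, G x * ∏ t ∈ S, (1 + l t * e t x) = ∑ x, G x + ∑ t ∈ S, l t * ∑ x, G x * e t x := by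
  have h1 : ∀ x, G x * ∏ t ∈ S, (1 + l t * e t x) =
      ∑ V ∈ S.powerset, (∏ t ∈ V, l t) * (G x * ∏ t ∈ V, e t x) := by
    intro x
    rw [Finset.prod_one_add, Finset.mul_sum]
    refine Finset.sum_congr rfl fun V _ => ?_
    rw [Finset.prod_mul_distrib]
    ring
  simp_rw [h1]
  rw [Finset.sum_comm]
  simp_rw [← Finset.mul_sum]
  rw [Finset.sum_powerset]
  have h2 : ∀ n ∈ range (S.card + 1), 2 ≤ n → ∑ V ∈ powersetCard n S, (∏ t ∈ V, l t) *
      ∑ x, G x * ∏ t ∈ V, e t x = 0 := by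
    intro n _ hn
    refine Finset.sum_eq_zero fun V hV => ?_
    rw [mem_powersetCard] at hV
    rw [h V hV.1 (by omega), mul_zero]
  have h3 : ∑ n ∈ range (S.card + 1), ∑ V ∈ powersetCard n S, (∏ t ∈ V, l t) *
      ∑ x, G x * ∏ t ∈ V, e t x = ∑ n ∈ range 2, ∑ V ∈ powersetCard n S, (∏ t ∈ V, l t) *
      ∑ x, G x * ∏ t ∈ V, e t x := by
    by_cases hc : S.card = 0
    · rw [hc]
      have hS : S = ∅ := Finset.card_eq_zero.mp hc
      subst hS
      have h5 : powersetCard 1 (∅ : Finset α) = ∅ := by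
        rw [Finset.powersetCard_eq_empty]
        simp
      rw [Finset.sum_range_succ (n := 1), h5]
      simp
    · symm
      refine Finset.sum_subset (fun n hn => ?_) fun n hn hn2 => ?_
      · rw [mem_range] at hn ⊢
        omega
      · rw [mem_range] at hn2
        exact h2 n hn (by omega)
  rw [h3, Finset.sum_range_succ, Finset.sum_range_one, powersetCard_zero, Finset.sum_singleton,
    powersetCard_one, Finset.sum_map]
  simp

theorem layer_l1 {i j : Fin d} (hij : i ≠ j) (m M : ℕ) (hM : M ≤ m) (hN : 2 ^ (2 * m + 4) ≤ N)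
    (R : ℕ → (Fin d → ZMod N) → ℝ)
    (hRi : ∀ t, t ≤ M → Sp i (blk (2 * t) : Set ℤ) (fun x => ((R t x : ℝ) : ℂ)))
    (hRj : ∀ t, t ≤ M → Sp j (blk (2 * (M - t)) : Set ℤ) (fun x => ((R t x : ℝ) : ℂ)))
    (S : Finset ℕ) (hS : ∀ a ∈ S, ∀ b ∈ S, a < b → a + 3 ≤ b) (hSM : ∀ a ∈ S, a ≤ M) :
    Real.sqrt (∑ t ∈ S, (∑ x, |R t x|) ^ 2) ≤ 72 * ∑ x, |∑ t ∈ range (M + 1), R t x| := by
  have hpow : ∀ k, k ≤ 2 * m → 2 ^ (k + 2) * 4 ≤ N := by
    intro k hk
    refine le_trans ?_ hN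
    have : 2 ^ (k + 2) * 4 = 2 ^ (k + 4) := by rw [pow_add, pow_add]; norm_num; ring
    rw [this]
    exact Nat.pow_le_pow_right (by norm_num) (by omega)
  have hdbl : ∀ k, k ≤ 2 * m → 2 * 2 ^ k ≤ N := by
    intro k hk
    have := hpow k hk
    have e : 2 ^ (k + 2) = 4 * 2 ^ k := by ring
    omega
  set e : ℕ → (Fin d → ZMod N) → ℝ := fun t => dual2 i j (2 * t) (2 * (M - t)) (R t) with he
  have he1 : ∀ t, t ≤ M → ∀ x, |e t x| ≤ 1 := fun t ht x =>
    abs_dual2_le i j _ _ (hdbl _ (by omega)) (hdbl _ (by omega)) (R t) x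
  have heL : ∀ t, t ≤ M → Sp i (SS (2 * t)) (fun x => ((e t x : ℝ) : ℂ)) := fun t ht =>
    dual2_spec_left i j _ _ (by omega) (by have := hpow (2 * t) (by omega); omega) _
  have heR : ∀ t, t ≤ M → Sp j (SS (2 * (M - t))) (fun x => ((e t x : ℝ) : ℂ)) := fun t ht =>
    dual2_spec_right i j hij _ _ (by omega) (by have := hpow (2 * (M - t)) (by omega); omega) _
  set G : (Fin d → ZMod N) → ℝ := fun x => ∑ t ∈ range (M + 1), R t x with hG
  -- the higher order terms
  have hzero : ∀ V ⊆ S, 2 ≤ V.card → ∑ x, (G x : ℂ) * ∏ t ∈ V, ((e t x : ℝ) : ℂ) = 0 := by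
    intro V hV hcard
    have hne : V.Nonempty := Finset.card_pos.mp (by omega)
    set a := V.max' hne with ha
    set b := V.min' hne with hb
    have haV : a ∈ V := V.max'_mem hne
    have hbV : b ∈ V := V.min'_mem hne
    have hba : b < a := by
      apply Finset.min'_lt_max'_of_card
      omega
    have hsep : ∀ s ∈ V, ∀ t ∈ V, s < t → s + 3 ≤ t := fun s hs t ht h =>
      hS s (hV hs) t (hV ht) h
    have hVM : ∀ t ∈ V, t ≤ M := fun t ht => hSM t (hV ht)
    have hab := hsep b hbV a haV hba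
    simp only [hG]
    push_cast
    simp_rw [Finset.sum_mul]
    rw [Finset.sum_comm]
    refine Finset.sum_eq_zero fun t' ht' => ?_
    rw [mem_range] at ht'
    by_cases hcase : t' + 2 ≤ a
    · refine cross_zero (i := i) V (fun t => t) a haV (fun t ht hta => ?_) (fun _ _ _ _ h => h)
        (fun t x => ((e t x : ℝ) : ℂ)) (fun t ht => heL t (hVM t ht)) _ t'
        ((hRi t' (by omega)).mono (blk_sub_Lo _)) hcase ?_
      · have h1 : t ≤ a := V.le_max' t ht
        exact hsep t ht a haV (lt_of_le_of_ne h1 hta)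
      · have := hpow (2 * a) (by have := hVM a haV; omega)
        omega
    · push Not at hcase
      have hMb : b ≤ M := hVM b hbV
      refine cross_zero (i := j) V (fun t => M - t) b hbV (fun t ht htb => ?_) ?_
        (fun t x => ((e t x : ℝ) : ℂ)) (fun t ht => heR t (hVM t ht)) _ (M - t')
        ((hRj t' (by omega)).mono (blk_sub_Lo _)) (by omega) ?_
      · have h1 : b ≤ t := V.min'_le t ht
        have h2 := hsep b hbV t ht (lt_of_le_of_ne h1 (Ne.symm htb))
        have h3 := hVM t ht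
        omega
      · intro s hs t ht hst
        have h3 := hVM t ht
        have h4 := hVM s hs
        simp only at hst
        omega
      · have := hpow (2 * (M - b)) (by omega)
        omega
  -- the first order terms
  have hfirst : ∀ t ∈ S, ∑ x, G x * e t x = (1 / 36) * ∑ x, |R t x| := by
    intro t ht
    have htM := hSM t ht
    simp only [hG]
    simp_rw [Finset.sum_mul]
    rw [Finset.sum_comm, Finset.sum_eq_single t]
    · exact dual2_self i j (by omega) (by omega) (by have := hpow (2 * t) (by omega); omega)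
        (by have := hpow (2 * (M - t)) (by omega); omega) (hRi t htM) (hRj t htM)
    · intro t' ht' hne
      rw [mem_range] at ht'
      refine dual2_other i j (s := 2 * t) (s' := 2 * t') (by omega) (by omega) (by omega) ?_
        (hRi t' (by omega))
      have h1 := hpow (2 * t) (by omega)
      have h2 := hpow (2 * t') (by omega)
      have e1 : 2 ^ (2 * t + 2) = 4 * 2 ^ (2 * t) := by ring
      have e2 : 2 ^ (2 * t' + 2) = 4 * 2 ^ (2 * t') := by ring
      omega
    · intro h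
      exact absurd (mem_range.mpr (by omega)) h
  refine l2_le_of_forall S (fun t => ∑ x, |R t x|) _ (by positivity) fun l hl => ?_
  have hexp := expand_first S (fun t => Complex.I * ((l t : ℝ) : ℂ))
    (fun t x => ((e t x : ℝ) : ℂ)) (fun x => (G x : ℂ)) hzero
  have hR : ∑ t ∈ S, Complex.I * ((l t : ℝ) : ℂ) * ∑ x, (G x : ℂ) * ((e t x : ℝ) : ℂ) =
      Complex.I * (((1 / 36) * ∑ t ∈ S, l t * ∑ x, |R t x| : ℝ) : ℂ) := by
    push_cast
    rw [Finset.mul_sum, Finset.mul_sum]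
    refine Finset.sum_congr rfl fun t ht => ?_
    have h1 := hfirst t ht
    have h2 : ∑ x, (G x : ℂ) * ((e t x : ℝ) : ℂ) = (((1 / 36) * ∑ x, |R t x| : ℝ) : ℂ) := by
      rw [← h1]
      push_cast
      rfl
    rw [h2]
    push_cast
    ring
  rw [hR] at hexp
  have him : (∑ x, (G x : ℂ) * ∏ t ∈ S, (1 + Complex.I * ((l t : ℝ) : ℂ) * ((e t x : ℝ) : ℂ))).im =
      (1 / 36) * ∑ t ∈ S, l t * ∑ x, |R t x| := by
    rw [hexp, Complex.add_im]
    have h1 : (∑ x, (G x : ℂ)).im = 0 := by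
      have : (∑ x, (G x : ℂ)) = ((∑ x, G x : ℝ) : ℂ) := by push_cast; rfl
      rw [this, Complex.ofReal_im]
    rw [h1, zero_add, Complex.I_mul_im, Complex.ofReal_re]
  have hbd : ‖∑ x, (G x : ℂ) * ∏ t ∈ S, (1 + Complex.I * ((l t : ℝ) : ℂ) * ((e t x : ℝ) : ℂ))‖ ≤
      2 * ∑ x, |G x| := by
    refine (norm_sum_le _ _).trans ?_
    rw [Finset.mul_sum]
    refine Finset.sum_le_sum fun x _ => ?_
    rw [norm_mul, Complex.norm_real, Real.norm_eq_abs, mul_comm]
    refine mul_le_mul_of_nonneg_right ?_ (abs_nonneg _)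
    have := norm_riesz_le S (fun t => e t x) l (fun t ht => he1 t (hSM t ht) x) hl
    refine le_trans (le_of_eq ?_) this
    congr 1
    refine Finset.prod_congr rfl fun t _ => ?_
    push_cast
    ring
  have h5 := (Complex.abs_im_le_norm _).trans hbd
  rw [him] at h5
  have h6 := le_abs_self ((1 / 36) * ∑ t ∈ S, l t * ∑ x, |R t x|)
  linarith

end Pool.Agent.MP_a7b2aa_an.RS
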