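import Pool.Agent.Lib.MP_a7b2aa_an.RS.Grid
import Pool.Agent.Lib.MP_a7b2aa_an.R12

/-!
Random signs: the block polynomials on the grid and on the torus.
-/

set_option autoImplicit false
set_option linter.unusedSectionVars false

namespace Pool.Agent.MP_a7b2aa_an.RS

open Finset ZMod Filter Topology

/-- The spectrum of a block polynomial on the grid. -/
theorem blockPoly_spec {d : ℕ} (L : ℕ) (c : (Fin d → ℤ) → ℂ) (s : Fin d → ℕ) (i : Fin d) :
    Sp i (blk (s i) : Set ℤ) (fun x : Fin d → ZMod (2 ^ L) => blockPoly c s (gp L x)) := by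
  classical
  refine ⟨{k // k ∈ Fintype.piFinset (fun j => blk (s j))}, inferInstance, fun k => k.1 i,
    fun k x => c k.1 * ∏ j ∈ ({i} : Finset (Fin d))ᶜ, stdAddChar ((k.1 j : ZMod (2 ^ L)) * x j),
    fun k => ?_, fun k x t => ?_, fun x => ?_⟩
  · exact Finset.mem_coe.mpr ((Fintype.mem_piFinset.mp k.2) i)
  · beta_reduce
    congr 1
    refine Finset.prod_congr rfl fun j hj => ?_
    rw [Function.update_of_ne]
    simpa using hj
  · beta_reduce
    unfold blockPoly gp
    rw [← Finset.sum_coe_sort (Fintype.piFinset (fun j => blk (s j)))]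
    refine Finset.sum_congr rfl fun k _ => ?_
    rw [mul_assoc]
    congr 1
    rw [Finset.mul_sum, Complex.exp_sum, Fintype.prod_eq_mul_prod_compl i, mul_comm]
    congr 1
    · refine Finset.prod_congr rfl fun j _ => ?_
      rw [psi_gp]
    · rw [psi_gp]

/-- A tuple from its first coordinates and the last but one. -/
def tup {e : ℕ} (m : ℕ) (σ : Fin (e + 1) → Fin (m + 1)) (t : ℕ) : Fin (e + 3) → ℕ :=
  Fin.snoc (Fin.snoc (fun j => (σ j : ℕ)) t : Fin (e + 2) → ℕ) (m - ∑ j, (σ j : ℕ) - t)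

/-- The first coordinates of a tuple. -/
def hd {e : ℕ} (m : ℕ) (l : Fin (e + 3) → ℕ) : Fin (e + 1) → Fin (m + 1) :=
  fun j => Fin.ofNat (m + 1) (l (Fin.castSucc (Fin.castSucc j)))

theorem tup_last {e m : ℕ} (σ : Fin (e + 1) → Fin (m + 1)) (t : ℕ) :
    tup m σ t (Fin.last (e + 2)) = m - ∑ j, (σ j : ℕ) - t := by
  unfold tup
  rw [Fin.snoc_last]

theorem tup_mid {e m : ℕ} (σ : Fin (e + 1) → Fin (m + 1)) (t : ℕ) :
    tup m σ t (Fin.castSucc (Fin.last (e + 1))) = t := by
  unfold tup
  rw [Fin.snoc_castSucc, Fin.snoc_last]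

theorem tup_head {e m : ℕ} (σ : Fin (e + 1) → Fin (m + 1)) (t : ℕ) (j : Fin (e + 1)) :
    tup m σ t (Fin.castSucc (Fin.castSucc j)) = σ j := by
  unfold tup
  rw [Fin.snoc_castSucc, Fin.snoc_castSucc]

theorem sum_tup {e : ℕ} (l : Fin (e + 3) → ℕ) : ∑ i, l i =
    ∑ j : Fin (e + 1), l (Fin.castSucc (Fin.castSucc j)) + l (Fin.castSucc (Fin.last (e + 1))) +
      l (Fin.last (e + 2)) := by
  rw [Fin.sum_univ_castSucc, Fin.sum_univ_castSucc]

/-- The index set of the pieces. -/
theorem sum_antidiag {e : ℕ} (m : ℕ) {A : Type*} [AddCommMonoid A] (f : (Fin (e + 3) → ℕ) → A) :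
    ∑ l ∈ Finset.Nat.antidiagonalTuple (e + 3) m, f l =
      ∑ σ ∈ univ.filter (fun σ : Fin (e + 1) → Fin (m + 1) => ∑ j, (σ j : ℕ) ≤ m),
        ∑ t ∈ range (m - ∑ j, (σ j : ℕ) + 1), f (tup m σ t) := by
  rw [Finset.sum_sigma']
  refine Finset.sum_nbij' (fun l => ⟨hd m l, l (Fin.castSucc (Fin.last (e + 1)))⟩)
    (fun p => tup m p.1 p.2) ?_ ?_ ?_ ?_ ?_
  · intro l hl
    rw [Finset.Nat.mem_antidiagonalTuple, sum_tup] at hl
    have h1 : ∀ j : Fin (e + 1), ((hd m l j : Fin (m + 1)) : ℕ) =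
        l (Fin.castSucc (Fin.castSucc j)) := by
      intro j
      have h2 : l (Fin.castSucc (Fin.castSucc j)) ≤
          ∑ j : Fin (e + 1), l (Fin.castSucc (Fin.castSucc j)) :=
        Finset.single_le_sum (f := fun j : Fin (e + 1) => l (Fin.castSucc (Fin.castSucc j)))
          (fun _ _ => Nat.zero_le _) (mem_univ j)
      unfold hd
      rw [Fin.val_ofNat, Nat.mod_eq_of_lt (by omega)]
    rw [mem_sigma, mem_filter, mem_range]
    simp only [h1]
    refine ⟨⟨mem_univ _, by omega⟩, by omega⟩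
  · intro p hp
    rw [mem_sigma, mem_filter, mem_range] at hp
    rw [Finset.Nat.mem_antidiagonalTuple, sum_tup, tup_last, tup_mid]
    simp only [tup_head]
    omega
  · intro l hl
    rw [Finset.Nat.mem_antidiagonalTuple, sum_tup] at hl
    have h1 : ∀ j : Fin (e + 1), ((hd m l j : Fin (m + 1)) : ℕ) =
        l (Fin.castSucc (Fin.castSucc j)) := by
      intro j
      have h2 : l (Fin.castSucc (Fin.castSucc j)) ≤
          ∑ j : Fin (e + 1), l (Fin.castSucc (Fin.castSucc j)) :=
        Finset.single_le_sum (f := fun j : Fin (e + 1) => l (Fin.castSucc (Fin.castSucc j)))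
          (fun _ _ => Nat.zero_le _) (mem_univ j)
      unfold hd
      rw [Fin.val_ofNat, Nat.mod_eq_of_lt (by omega)]
    funext i
    refine Fin.lastCases ?_ (fun i => ?_) i
    · simp only
      rw [tup_last]
      simp only [h1]
      omega
    · refine Fin.lastCases ?_ (fun i => ?_) i
      · simp only
        rw [tup_mid]
      · simp only
        rw [tup_head, h1]
  · rintro ⟨σ, t⟩ hp
    rw [mem_sigma, mem_filter, mem_range] at hp
    simp only at hp ⊢
    rw [tup_mid]
    congr 1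
    funext j
    unfold hd
    rw [tup_head]
    exact Fin.ofNat_val_eq_self (σ j)
  · intro l hl
    rw [Finset.Nat.mem_antidiagonalTuple, sum_tup] at hl
    congr 1
    have h1 : ∀ j : Fin (e + 1), ((hd m l j : Fin (m + 1)) : ℕ) =
        l (Fin.castSucc (Fin.castSucc j)) := by
      intro j
      have h2 : l (Fin.castSucc (Fin.castSucc j)) ≤
          ∑ j : Fin (e + 1), l (Fin.castSucc (Fin.castSucc j)) :=
        Finset.single_le_sum (f := fun j : Fin (e + 1) => l (Fin.castSucc (Fin.castSucc j)))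
          (fun _ _ => Nat.zero_le _) (mem_univ j)
      unfold hd
      rw [Fin.val_ofNat, Nat.mod_eq_of_lt (by omega)]
    funext i
    refine Fin.lastCases ?_ (fun i => ?_) i
    · simp only
      rw [tup_last]
      simp only [h1]
      omega
    · refine Fin.lastCases ?_ (fun i => ?_) i
      · simp only
        rw [tup_mid]
      · simp only
        rw [tup_head, h1]

theorem hd_tup {e m : ℕ} (σ : Fin (e + 1) → Fin (m + 1)) (t : ℕ) : hd m (tup m σ t) = σ := by
  funext j
  unfold hd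
  rw [tup_head]
  exact Fin.ofNat_val_eq_self (σ j)

end Pool.Agent.MP_a7b2aa_an.RS
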