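import Mathlib

/-!
Averages over random signs, a Khinchin type inequality by a Riesz product.
-/

set_option autoImplicit false

namespace Pool.Agent.MP_a7b2aa_an.RS

open Finset

/-- a sign as a complex number -/
def sg (u : ℤˣ) : ℂ := ((u : ℤ) : ℂ)

theorem sum_units (f : ℤˣ → ℂ) : ∑ u : ℤˣ, f u = f 1 + f (-1) := by
  have h : (univ : Finset ℤˣ) = {1, -1} := rfl
  rw [h, Finset.sum_pair (by decide)]

theorem sg_one : sg 1 = 1 := by simp [sg]
theorem sg_neg_one : sg (-1) = -1 := by simp [sg]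

variable {ι : Type*} [Fintype ι] [DecidableEq ι]

theorem sum_prod_units (f : ι → ℤˣ → ℂ) :
    ∑ η : ι → ℤˣ, ∏ i, f i (η i) = ∏ i, (f i 1 + f i (-1)) := by
  have h := Finset.prod_univ_sum (fun _ : ι => (univ : Finset ℤˣ)) f
  rw [Fintype.piFinset_univ] at h
  rw [← h]
  exact Finset.prod_congr rfl fun i _ => sum_units (f i)

/-- Random signs pick the coefficient. -/
theorem sign_avg (S : Finset ι) (e : ι → ℂ) (b : ι) :
    ∑ η : ι → ℤˣ, sg (η b) * ∏ a ∈ S, (1 + sg (η a) * e a) =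
      2 ^ (Fintype.card ι) * (if b ∈ S then e b else 0) := by
  have h1 : ∀ η : ι → ℤˣ, sg (η b) * ∏ a ∈ S, (1 + sg (η a) * e a) =
      ∏ a, ((if a = b then sg (η a) else 1) * (if a ∈ S then 1 + sg (η a) * e a else 1)) := by
    intro η
    rw [Finset.prod_mul_distrib, Finset.prod_ite_eq' univ b, if_pos (mem_univ b),
      ← Finset.prod_filter, Finset.filter_mem_eq_inter, Finset.univ_inter]
  simp_rw [h1]
  rw [sum_prod_units (fun a u => (if a = b then sg u else 1) *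
    (if a ∈ S then 1 + sg u * e a else 1))]
  have h2 : ∀ a, ((if a = b then sg 1 else 1) * (if a ∈ S then 1 + sg 1 * e a else 1) +
      (if a = b then sg (-1) else 1) * (if a ∈ S then 1 + sg (-1) * e a else 1)) =
      2 * (if a = b then (if b ∈ S then e b else 0) else 1) := by
    intro a
    rw [sg_one, sg_neg_one]
    by_cases hab : a = b
    · subst hab
      simp only [if_true]
      split_ifs <;> ring
    · simp only [if_neg hab]
      split_ifs <;> ring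
  rw [Finset.prod_congr rfl fun a _ => h2 a, Finset.prod_mul_distrib, Finset.prod_const,
    card_univ, Finset.prod_ite_eq' univ b, if_pos (mem_univ b)]

/-- The modulus of a complex Riesz product. -/
theorem norm_riesz_le {α : Type*} (S : Finset α) (e l : α → ℝ) (he : ∀ a ∈ S, |e a| ≤ 1)
    (hl : ∑ a ∈ S, l a ^ 2 ≤ 1) :
    ‖∏ a ∈ S, (1 + Complex.I * ((l a * e a : ℝ) : ℂ))‖ ≤ 2 := by
  rw [norm_prod]
  have h1 : ∀ a ∈ S, ‖(1 + Complex.I * ((l a * e a : ℝ) : ℂ))‖ ≤ Real.exp (l a ^ 2 / 2) := by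
    intro a ha
    have h2 : ‖(1 + Complex.I * ((l a * e a : ℝ) : ℂ))‖ ^ 2 = 1 + (l a * e a) ^ 2 := by
      rw [← Complex.normSq_eq_norm_sq, Complex.normSq_apply]
      simp
      ring
    have h3 : (l a * e a) ^ 2 ≤ l a ^ 2 := by
      rw [mul_pow]
      have h4 : e a ^ 2 ≤ 1 := by
        rw [sq_le_one_iff_abs_le_one]
        exact he a ha
      nlinarith [sq_nonneg (l a)]
    have h5 : 1 + l a ^ 2 ≤ Real.exp (l a ^ 2 / 2) ^ 2 := by
      rw [← Real.exp_nat_mul]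
      have := Real.add_one_le_exp (l a ^ 2)
      have e1 : ((2 : ℕ) : ℝ) * (l a ^ 2 / 2) = l a ^ 2 := by push_cast; ring
      rw [e1]
      linarith
    refine le_of_sq_le_sq ?_ (Real.exp_pos _).le
    rw [h2]
    linarith
  refine (Finset.prod_le_prod (fun a _ => norm_nonneg _) h1).trans ?_
  rw [← Real.exp_sum, ← Finset.sum_div]
  have h6 : (∑ a ∈ S, l a ^ 2) / 2 ≤ 1 / 2 := by linarith
  refine (Real.exp_le_exp.mpr h6).trans ?_
  have h7 : Real.exp (1 / 2) ^ 2 = Real.exp 1 := by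
    rw [← Real.exp_nat_mul]
    norm_num
  have h8 := Real.exp_one_lt_d9
  refine le_of_sq_le_sq ?_ (by norm_num)
  rw [h7]
  linarith

/-- Khinchin type inequality in `L ^ 1`. -/
theorem khinchin (s : Finset ι) (b l : ι → ℝ) (hl : ∑ a ∈ s, l a ^ 2 ≤ 1) :
    2 ^ (Fintype.card ι) * ∑ a ∈ s, l a * |b a| ≤
      2 * ∑ η : ι → ℤˣ, |∑ a ∈ s, ((η a : ℤ) : ℝ) * b a| := by
  set k : ι → ℝ := fun a => SignType.sign (b a) with hk
  have hk1 : ∀ a, |k a| ≤ 1 := by
    intro a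
    rcases lt_trichotomy (b a) 0 with h | h | h
    · simp [hk, sign_neg h]
    · simp [hk, h]
    · simp [hk, sign_pos h]
  have hkb : ∀ a, k a * b a = |b a| := fun a => sign_mul_self (b a)
  have h1 : ∀ η : ι → ℤˣ, ((∑ a ∈ s, ((η a : ℤ) : ℝ) * b a : ℝ) : ℂ) *
      ∏ a ∈ s, (1 + Complex.I * ((l a * (((η a : ℤ) : ℝ) * k a) : ℝ) : ℂ)) =
      ∑ c ∈ s, (b c : ℂ) * (sg (η c) * ∏ a ∈ s, (1 + sg (η a) * (Complex.I * (l a * k a : ℝ)))) := by
    intro η
    push_cast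
    rw [Finset.sum_mul]
    refine Finset.sum_congr rfl fun c _ => ?_
    have e1 : ∀ a, (1 + Complex.I * ((l a : ℂ) * (((η a : ℤ) : ℂ) * (k a : ℂ)))) =
        1 + sg (η a) * (Complex.I * ((l a : ℂ) * (k a : ℂ))) := by
      intro a
      unfold sg
      ring
    rw [Finset.prod_congr rfl fun a _ => e1 a]
    unfold sg
    ring
  have h2 : ∑ η : ι → ℤˣ, ((∑ a ∈ s, ((η a : ℤ) : ℝ) * b a : ℝ) : ℂ) *
      ∏ a ∈ s, (1 + Complex.I * ((l a * (((η a : ℤ) : ℝ) * k a) : ℝ) : ℂ)) =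
      Complex.I * ((2 ^ (Fintype.card ι) * ∑ a ∈ s, l a * |b a| : ℝ) : ℂ) := by
    simp_rw [h1]
    rw [Finset.sum_comm]
    simp_rw [← Finset.mul_sum]
    push_cast
    rw [Finset.mul_sum, Finset.mul_sum]
    refine Finset.sum_congr rfl fun c hc => ?_
    have := sign_avg s (fun a => Complex.I * ((l a * k a : ℝ) : ℂ)) c
    push_cast at this
    rw [this, if_pos hc, ← hkb c]
    push_cast
    ring
  have h3 : ‖Complex.I * ((2 ^ (Fintype.card ι) * ∑ a ∈ s, l a * |b a| : ℝ) : ℂ)‖ ≤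
      ∑ η : ι → ℤˣ, |∑ a ∈ s, ((η a : ℤ) : ℝ) * b a| * 2 := by
    rw [← h2]
    refine (norm_sum_le _ _).trans (Finset.sum_le_sum fun η _ => ?_)
    rw [norm_mul, Complex.norm_real, Real.norm_eq_abs]
    refine mul_le_mul_of_nonneg_left ?_ (abs_nonneg _)
    refine norm_riesz_le s (fun a => ((η a : ℤ) : ℝ) * k a) l (fun a _ => ?_) hl
    rw [abs_mul]
    have : |((η a : ℤ) : ℝ)| = 1 := by
      rcases Int.units_eq_one_or (η a) with h | h <;> rw [h] <;> simp
    rw [this, one_mul]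
    exact hk1 a
  rw [norm_mul, Complex.norm_I, one_mul, Complex.norm_real, Real.norm_eq_abs,
    ← Finset.sum_mul] at h3
  have h4 := le_abs_self (2 ^ (Fintype.card ι) * ∑ a ∈ s, l a * |b a|)
  linarith

/-- duality for the `l ^ 2` norm -/
theorem l2_le_of_forall {α : Type*} (s : Finset α) (r : α → ℝ) (A : ℝ)
    (hA : 0 ≤ A) (h : ∀ l : α → ℝ, ∑ a ∈ s, l a ^ 2 ≤ 1 → ∑ a ∈ s, l a * r a ≤ A) :
    Real.sqrt (∑ a ∈ s, r a ^ 2) ≤ A := by
  set n := Real.sqrt (∑ a ∈ s, r a ^ 2) with hn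
  have h0 : 0 ≤ ∑ a ∈ s, r a ^ 2 := Finset.sum_nonneg fun a _ => sq_nonneg _
  have hnn : n ^ 2 = ∑ a ∈ s, r a ^ 2 := Real.sq_sqrt h0
  rcases eq_or_lt_of_le (Real.sqrt_nonneg (∑ a ∈ s, r a ^ 2)) with h1 | h1
  · rw [← hn] at h1
    rw [← h1]
    exact hA
  · rw [← hn] at h1
    have h2 := h (fun a => r a / n) (by
      simp_rw [div_pow]
      rw [← Finset.sum_div, ← hnn]
      rw [div_self (by positivity)])
    have h3 : ∑ a ∈ s, r a / n * r a = n := by
      have : ∀ a, r a / n * r a = r a ^ 2 / n := fun a => by ring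
      simp_rw [this]
      rw [← Finset.sum_div, ← hnn]
      field_simp
    linarith

end Pool.Agent.MP_a7b2aa_an.RS
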