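import Pool.Agent.Lib.MP_a7b2aa_an.RS.Kern
import Pool.Agent.Lib.MP_a7b2aa_an.RS.Signs

/-!
Products of band limited functions: vanishing of cross terms.
-/

set_option autoImplicit false

namespace Pool.Agent.MP_a7b2aa_an.RS

open Finset ZMod

variable {d N : ℕ} [NeZero N]

theorem Lo_mono {B C : ℕ} (h : B ≤ C) : Lo B ⊆ Lo C := fun k hk => by
  simp only [Lo, Set.mem_ofPred_eq] at hk ⊢
  omega

theorem prod_low {i : Fin d} {α : Type*} (S : Finset α) (b : α → ℕ)
    (u : α → (Fin d → ZMod N) → ℂ) (hu : ∀ t ∈ S, Sp i (Lo (b t + 1)) (u t)) :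
    Sp i (Lo (∑ t ∈ S, b t + 1)) (fun x => ∏ t ∈ S, u t x) := by
  classical
  induction S using Finset.induction_on with
  | empty =>
    simp only [Finset.prod_empty, Finset.sum_empty]
    refine (Sp.const i 1).mono fun k hk => ?_
    simp only [Set.mem_singleton_iff] at hk
    subst hk
    simp [Lo]
  | insert a S ha ih =>
    simp_rw [Finset.prod_insert ha]
    rw [Finset.sum_insert ha]
    refine (hu a (mem_insert_self _ _)).mul
      (ih fun t ht => hu t (mem_insert_of_mem ht)) ?_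
    intro k hk k' hk'
    simp only [Lo, Set.mem_ofPred_eq] at hk hk' ⊢
    omega

theorem sum_pow_lt (n : ℕ) : ∑ t ∈ range n, 2 ^ (2 * t + 1) + 1 ≤ 4 ^ n := by
  induction n with
  | zero => simp
  | succ n ih =>
    rw [Finset.sum_range_succ]
    have e1 : 2 ^ (2 * n + 1) = 2 * 4 ^ n := by
      rw [pow_succ, pow_mul]
      norm_num
      ring
    have e2 : 4 ^ (n + 1) = 4 * 4 ^ n := by ring
    omega

theorem sum_pow_le {α : Type*} (S : Finset α) (φ : α → ℕ) (hφ : Set.InjOn φ S) (n : ℕ)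
    (h : ∀ t ∈ S, φ t < n) : ∑ t ∈ S, 2 ^ (2 * φ t + 1) + 1 ≤ 4 ^ n := by
  classical
  refine le_trans ?_ (sum_pow_lt n)
  refine Nat.add_le_add_right ?_ 1
  rw [← Finset.sum_image (f := fun u => 2 ^ (2 * u + 1)) hφ]
  refine Finset.sum_le_sum_of_subset fun u hu => ?_
  rw [mem_image] at hu
  obtain ⟨t, ht, rfl⟩ := hu
  exact mem_range.mpr (h t ht)

/-- A product of band limited functions with one dominating frequency is orthogonal to low
frequencies. -/
theorem cross_zero {i : Fin d} {α : Type*} [DecidableEq α] (V : Finset α) (φ : α → ℕ) (a : α)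
    (ha : a ∈ V) (hφ : ∀ t ∈ V, t ≠ a → φ t + 3 ≤ φ a) (hinj : Set.InjOn φ V)
    (e : α → (Fin d → ZMod N) → ℂ) (he : ∀ t ∈ V, Sp i (SS (2 * φ t)) (e t))
    (r : (Fin d → ZMod N) → ℂ) (τ : ℕ) (hr : Sp i (Lo (2 ^ (2 * τ))) r) (hτ : τ + 2 ≤ φ a)
    (hN : 2 ^ (2 * φ a + 2) ≤ N) : ∑ x, r x * ∏ t ∈ V, e t x = 0 := by
  have h1 : Sp i (Lo (∑ t ∈ V.erase a, 2 ^ (2 * φ t + 1) + 1)) (fun x => ∏ t ∈ V.erase a, e t x) :=
    prod_low (V.erase a) (fun t => 2 ^ (2 * φ t + 1)) e fun t ht =>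
      (he t (mem_of_mem_erase ht)).mono ((SS_sub_Lo _).trans (Lo_mono (by omega)))
  have h2 : ∑ t ∈ V.erase a, 2 ^ (2 * φ t + 1) + 1 ≤ 4 ^ (φ a - 2) := by
    refine sum_pow_le (V.erase a) φ (hinj.mono (by simp)) _ fun t ht => ?_
    have := hφ t (mem_of_mem_erase ht) (ne_of_mem_erase ht)
    omega
  obtain ⟨p, hp⟩ : ∃ p, φ a = p + 2 := ⟨φ a - 2, by omega⟩
  rw [hp, show p + 2 - 2 = p by omega] at h2
  have e1 : 2 ^ (2 * p + 2) = 4 * 4 ^ p := by
    rw [pow_add, pow_mul]
    norm_num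
    ring
  have e2 : 2 ^ (2 * τ) ≤ 4 ^ p := by
    rw [pow_mul]
    norm_num
    exact Nat.pow_le_pow_right (by norm_num) (by omega)
  have h3 : ∑ x, e a x * (r x * ∏ t ∈ V.erase a, e t x) = 0 := by
    refine sum_high_low (s := 2 * φ a) (B := 2 ^ (2 * p + 2 - 2 + 0) * 2) (by omega) ?_ hN
      (he a ha) ((hr.mul h1 (C := Lo (2 ^ (2 * p + 2 - 2 + 0) * 2 + 1))) ?_)
    · rw [hp]
      have e3 : 2 ^ (2 * (p + 2) - 2) = 2 ^ (2 * p) * 4 := by
        rw [show 2 * (p + 2) - 2 = 2 * p + 2 by omega, pow_add]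
        norm_num
      rw [e3, show 2 * p + 2 - 2 + 0 = 2 * p by omega]
      have : 0 < 2 ^ (2 * p) := by positivity
      omega
    · intro k hk k' hk'
      simp only [Lo, Set.mem_ofPred_eq] at hk hk' ⊢
      rw [show 2 * p + 2 - 2 + 0 = 2 * p by omega, pow_mul]
      norm_num
      omega
  rw [← h3]
  refine Finset.sum_congr rfl fun x _ => ?_
  rw [← Finset.mul_prod_erase V (fun t => e t x) ha]
  ring

/-- The mass of the Riesz product in the first variable. -/
theorem mass_le {i : Fin d} (m : ℕ) (hN : 2 ^ (2 * m + 2) ≤ N) (S : Finset ℕ)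
    (hS : ∀ a ∈ S, ∀ b ∈ S, a < b → a + 3 ≤ b) (hm : ∀ a ∈ S, a ≤ m)
    (w : ℕ → (Fin d → ZMod N) → ℝ) (hw : ∀ t, t ≤ m → Sp i (SS (2 * t)) (fun x => ((w t x : ℝ) : ℂ)))
    (hw1 : ∀ t x, |w t x| ≤ 1) :
    ∑ x : Fin d → ZMod N, ∏ t ∈ S, (1 + w t x) ≤ 2 * (N : ℝ) ^ d := by
  classical
  have hcard : ((Finset.univ : Finset (Fin d → ZMod N)).card : ℝ) = (N : ℝ) ^ d := by
    rw [card_univ, Fintype.card_pi]
    simp [ZMod.card]
  induction S using Finset.induction_on_max with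
  | empty =>
    simp only [Finset.prod_empty, Finset.sum_const, nsmul_eq_mul, mul_one]
    rw [hcard]
    have : (0 : ℝ) ≤ (N : ℝ) ^ d := by positivity
    linarith
  | insert a S hmax ih =>
    have hnot : a ∉ S := fun h => lt_irrefl _ (hmax a h)
    have ih' := ih (fun b hb c hc => hS b (mem_insert_of_mem hb) c (mem_insert_of_mem hc))
      (fun b hb => hm b (mem_insert_of_mem hb))
    simp_rw [Finset.prod_insert hnot]
    by_cases ha : a = 0
    · have hSe : S = ∅ := by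
        rw [Finset.eq_empty_iff_forall_notMem]
        intro b hb
        have := hmax b hb
        omega
      subst hSe
      simp only [Finset.prod_empty, mul_one]
      have h1 : ∀ x : Fin d → ZMod N, 1 + w a x ≤ 2 := by
        intro x
        have := (abs_le.mp (hw1 a x)).2
        linarith
      refine (Finset.sum_le_sum fun x _ => h1 x).trans ?_
      rw [Finset.sum_const, nsmul_eq_mul, hcard, mul_comm]
    · have ham : a ≤ m := hm a (mem_insert_self _ _)
      have hpow : 2 ^ (2 * a + 2) ≤ N := (Nat.pow_le_pow_right (by norm_num) (by omega)).trans hN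
      have h1 : Sp i (Lo (∑ t ∈ S, 2 ^ (2 * t + 1) + 1))
          (fun x => ∏ t ∈ S, (1 + ((w t x : ℝ) : ℂ))) := by
        refine prod_low S (fun t => 2 ^ (2 * t + 1)) (fun t x => 1 + ((w t x : ℝ) : ℂ))
          fun t ht => ?_
        refine ((Sp.const i 1).mono fun k hk => ?_).add ((hw t (hm t (mem_insert_of_mem ht))).mono
          ((SS_sub_Lo _).trans (Lo_mono (by omega))))
        simp only [Set.mem_singleton_iff] at hk
        subst hk
        simp [Lo]
      have h2 : ∑ t ∈ S, 2 ^ (2 * t + 1) + 1 ≤ 4 ^ (a - 2) := by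
        refine sum_pow_le S (fun t => t) (fun _ _ _ _ h => h) _ fun t ht => ?_
        have := hS t (mem_insert_of_mem ht) a (mem_insert_self _ _) (hmax t ht)
        omega
      have h3 : ∑ x, ((w a x : ℝ) : ℂ) * ∏ t ∈ S, (1 + ((w t x : ℝ) : ℂ)) = 0 := by
        refine sum_high_low (s := 2 * a) (B := ∑ t ∈ S, 2 ^ (2 * t + 1)) (by omega) ?_ hpow
          (hw a ham) h1
        have e1 : 4 ^ (a - 2) ≤ 2 ^ (2 * a - 2) := by
          rw [show (4 : ℕ) = 2 ^ 2 by norm_num, ← pow_mul]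
          exact Nat.pow_le_pow_right (by norm_num) (by omega)
        omega
      have h4 : ∑ x, w a x * ∏ t ∈ S, (1 + w t x) = 0 := by
        have : ((∑ x, w a x * ∏ t ∈ S, (1 + w t x) : ℝ) : ℂ) = 0 := by
          push_cast
          exact h3
        exact_mod_cast this
      have h5 : ∑ x : Fin d → ZMod N, (1 + w a x) * ∏ t ∈ S, (1 + w t x) =
          ∑ x : Fin d → ZMod N, ∏ t ∈ S, (1 + w t x) := by
        simp_rw [add_mul, one_mul]
        rw [Finset.sum_add_distrib, h4, add_zero]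
      rw [h5]
      exact ih'

end Pool.Agent.MP_a7b2aa_an.RS
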