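import Pool.Agent.Lib.MP_a7b2aa_an.RS.Layer

/-!
Random signs of slices: lower bounds for the mean of the sup norm.
-/

set_option autoImplicit false
set_option linter.unusedSectionVars false

namespace Pool.Agent.MP_a7b2aa_an.RS

open Finset ZMod

variable {d N : ℕ} [NeZero N]

theorem mass_fin {i : Fin d} (m : ℕ) (hN : 2 ^ (2 * m + 2) ≤ N) (S : Finset (Fin (m + 1)))
    (hS : ∀ a ∈ S, ∀ b ∈ S, (a : ℕ) < b → (a : ℕ) + 3 ≤ b)
    (w : Fin (m + 1) → (Fin d → ZMod N) → ℝ)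
    (hw : ∀ t : Fin (m + 1), Sp i (SS (2 * (t : ℕ))) (fun x => ((w t x : ℝ) : ℂ)))
    (hw1 : ∀ t x, |w t x| ≤ 1) :
    ∑ x : Fin d → ZMod N, ∏ t ∈ S, (1 + w t x) ≤ 2 * (N : ℝ) ^ d := by
  set w' : ℕ → (Fin d → ZMod N) → ℝ := fun t x => if h : t < m + 1 then w ⟨t, h⟩ x else 0 with hw'
  have h := mass_le (i := i) m hN (S.map Fin.valEmbedding) (by
      intro a ha b hb hab
      rw [mem_map] at ha hb
      obtain ⟨a', ha', rfl⟩ := ha
      obtain ⟨b', hb', rfl⟩ := hb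
      exact hS a' ha' b' hb' hab) (by
      intro a ha
      rw [mem_map] at ha
      obtain ⟨a', ha', rfl⟩ := ha
      have := a'.isLt
      simp only [Fin.valEmbedding_apply]
      omega) w' (by
      intro t ht
      have e : w' t = w ⟨t, by omega⟩ := by
        funext x
        simp only [hw']
        rw [dif_pos (by omega)]
      rw [e]
      exact hw ⟨t, by omega⟩) (by
      intro t x
      simp only [hw']
      split_ifs
      · exact hw1 _ x
      · simp)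
  refine le_trans (le_of_eq ?_) h
  refine Finset.sum_congr rfl fun x _ => ?_
  rw [Finset.prod_map]
  refine Finset.prod_congr rfl fun t _ => ?_
  simp only [hw', Fin.valEmbedding_apply]
  rw [dif_pos t.isLt]

/-- The sign as a real number. -/
theorem abs_unit (u : ℤˣ) : |((u : ℤ) : ℝ)| = 1 := by
  rcases Int.units_eq_one_or u with h | h <;> rw [h] <;> simp

/-- real version of `sign_avg` -/
theorem sign_avg_real {ι : Type*} [Fintype ι] [DecidableEq ι] (S : Finset ι) (e : ι → ℝ) (b : ι) :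
    ∑ η : ι → ℤˣ, ((η b : ℤ) : ℝ) * ∏ a ∈ S, (1 + ((η a : ℤ) : ℝ) * e a) =
      2 ^ (Fintype.card ι) * (if b ∈ S then e b else 0) := by
  have h := sign_avg S (fun a => ((e a : ℝ) : ℂ)) b
  have h2 : ((∑ η : ι → ℤˣ, ((η b : ℤ) : ℝ) * ∏ a ∈ S, (1 + ((η a : ℤ) : ℝ) * e a) : ℝ) : ℂ) =
      ((2 ^ (Fintype.card ι) * (if b ∈ S then e b else 0) : ℝ) : ℂ) := by
    push_cast
    unfold sg at h
    rw [h]
    split_ifs <;> simp
  exact_mod_cast h2

variable {κ : Type} [Fintype κ] [DecidableEq κ]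

/-- One sign vector for the pieces, all sign vectors for the slices. -/
theorem slices_fixed {i : Fin d} (m : ℕ) (hN : 2 ^ (2 * m + 4) ≤ N) (S : Finset (Fin (m + 1)))
    (hS : ∀ a ∈ S, ∀ b ∈ S, (a : ℕ) < b → (a : ℕ) + 3 ≤ b)
    (R : Fin (m + 1) → (Fin d → ZMod N) → ℝ)
    (hR : ∀ b : Fin (m + 1), Sp i (blk (2 * (b : ℕ)) : Set ℤ) (fun x => ((R b x : ℝ) : ℂ)))
    (B : (Fin (m + 1) → ℤˣ) → ℝ)
    (hB : ∀ z x, ∑ b, ((z b : ℤ) : ℝ) * R b x ≤ B z) (hB0 : ∀ z, 0 ≤ B z) :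
    2 ^ (m + 1) * ∑ b ∈ S, ∑ x, |R b x| ≤ 12 * (N : ℝ) ^ d * ∑ z : Fin (m + 1) → ℤˣ, B z := by
  have hpow : ∀ k, k ≤ 2 * m → 2 ^ (k + 2) * 4 ≤ N := by
    intro k hk
    refine le_trans ?_ hN
    have : 2 ^ (k + 2) * 4 = 2 ^ (k + 4) := by rw [pow_add, pow_add]; norm_num; ring
    rw [this]
    exact Nat.pow_le_pow_right (by norm_num) (by omega)
  have hle : ∀ b : Fin (m + 1), 2 * (b : ℕ) ≤ 2 * m := fun b => by
    have := b.isLt
    omega
  set w : Fin (m + 1) → (Fin d → ZMod N) → ℝ := fun b x =>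
    (1 / 6) * T i (kf N (2 * (b : ℕ))) (sgn (R b)) x with hw
  have hw1 : ∀ b x, |w b x| ≤ 1 := by
    intro b x
    have h0 := hpow (2 * (b : ℕ)) (hle b)
    have e0 : 2 ^ (2 * (b : ℕ) + 2) = 4 * 2 ^ (2 * (b : ℕ)) := by ring
    have h1 := T_bound i (kf N (2 * (b : ℕ))) 6 (sum_abs_kf _ (by omega)) (sgn (R b)) 1
      (abs_sgn_le (R b)) x
    simp only [hw]
    rw [abs_mul, abs_of_pos (by norm_num : (0 : ℝ) < 1 / 6)]
    linarith
  have hws : ∀ b : Fin (m + 1), Sp i (SS (2 * (b : ℕ))) (fun x => ((w b x : ℝ) : ℂ)) := by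
    intro b
    have h := (kf_spec i (2 * (b : ℕ)) (by omega) (by have := hpow _ (hle b); omega)
      (sgn (R b))).smul ((1 / 6 : ℝ) : ℂ)
    refine (congrArg (Sp i (SS (2 * (b : ℕ)))) ?_).mp h
    funext x
    simp only [hw]
    push_cast
    ring
  have hpair : ∀ b, ∑ x, R b x * w b x = (1 / 6) * ∑ x, |R b x| := by
    intro b
    simp only [hw]
    have h1 : ∀ x, R b x * (1 / 6 * T i (kf N (2 * (b : ℕ))) (sgn (R b)) x) =
        (1 / 6) * (R b x * T i (kf N (2 * (b : ℕ))) (sgn (R b)) x) := fun x => by ring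
    simp_rw [h1]
    rw [← Finset.mul_sum, T_adj i _ (kf_neg _)]
    congr 1
    refine Finset.sum_congr rfl fun x _ => ?_
    rw [kf_self (by omega) (by have := hpow _ (hle b); omega) (hR b), mul_sgn]
  -- one sign vector
  have hone : ∀ z : Fin (m + 1) → ℤˣ, ∑ x, (∑ b, ((z b : ℤ) : ℝ) * R b x) *
      ∏ a ∈ S, (1 + ((z a : ℤ) : ℝ) * w a x) ≤ B z * (2 * (N : ℝ) ^ d) := by
    intro z
    have hpos : ∀ x, 0 ≤ ∏ a ∈ S, (1 + ((z a : ℤ) : ℝ) * w a x) := by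
      intro x
      refine Finset.prod_nonneg fun a _ => ?_
      have h1 : |((z a : ℤ) : ℝ) * w a x| ≤ 1 := by
        rw [abs_mul, abs_unit, one_mul]
        exact hw1 a x
      linarith [(abs_le.mp h1).1]
    calc ∑ x, (∑ b, ((z b : ℤ) : ℝ) * R b x) * ∏ a ∈ S, (1 + ((z a : ℤ) : ℝ) * w a x)
        ≤ ∑ x, B z * ∏ a ∈ S, (1 + ((z a : ℤ) : ℝ) * w a x) :=
          Finset.sum_le_sum fun x _ => mul_le_mul_of_nonneg_right (hB z x) (hpos x)
      _ = B z * ∑ x, ∏ a ∈ S, (1 + ((z a : ℤ) : ℝ) * w a x) := by rw [Finset.mul_sum]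
      _ ≤ _ := by
          refine mul_le_mul_of_nonneg_left ?_ (hB0 z)
          refine mass_fin (i := i) m (by
            refine le_trans ?_ hN
            exact Nat.pow_le_pow_right (by norm_num) (by omega)) S hS
            (fun a x => ((z a : ℤ) : ℝ) * w a x) (fun t => ?_) (fun t x => ?_)
          · have h := (hws t).smul (((z t : ℤ) : ℝ) : ℂ)
            refine (congrArg (Sp i (SS (2 * (t : ℕ)))) ?_).mp h
            funext x
            push_cast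
            ring
          · rw [abs_mul, abs_unit, one_mul]
            exact hw1 t x
  have hsum := Finset.sum_le_sum fun (z : Fin (m + 1) → ℤˣ) (_ : z ∈ univ) => hone z
  rw [Finset.sum_comm] at hsum
  have hcalc : ∀ x, ∑ z : Fin (m + 1) → ℤˣ, (∑ b, ((z b : ℤ) : ℝ) * R b x) *
      ∏ a ∈ S, (1 + ((z a : ℤ) : ℝ) * w a x) = 2 ^ (m + 1) * ∑ b ∈ S, R b x * w b x := by
    intro x
    simp_rw [Finset.sum_mul]
    rw [Finset.sum_comm]
    have h1 : ∀ b, ∑ z : Fin (m + 1) → ℤˣ, ((z b : ℤ) : ℝ) * R b x *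
        ∏ a ∈ S, (1 + ((z a : ℤ) : ℝ) * w a x) =
        if b ∈ S then 2 ^ (m + 1) * (R b x * w b x) else 0 := by
      intro b
      have h2 : ∀ z : Fin (m + 1) → ℤˣ, ((z b : ℤ) : ℝ) * R b x *
          ∏ a ∈ S, (1 + ((z a : ℤ) : ℝ) * w a x) = R b x * (((z b : ℤ) : ℝ) *
          ∏ a ∈ S, (1 + ((z a : ℤ) : ℝ) * w a x)) := fun z => by ring
      simp_rw [h2]
      rw [← Finset.mul_sum, sign_avg_real S (fun a => w a x) b, Fintype.card_fin]
      split_ifs <;> ring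
    rw [Finset.sum_congr rfl fun b _ => h1 b, ← Finset.sum_filter, Finset.filter_mem_eq_inter,
      Finset.univ_inter, Finset.mul_sum]
  rw [Finset.sum_congr rfl fun x _ => hcalc x, ← Finset.mul_sum, Finset.sum_comm,
    Finset.sum_congr rfl fun b _ => hpair b, ← Finset.mul_sum, ← Finset.sum_mul] at hsum
  linarith

/-- Random signs of the pieces. -/
theorem slices {i : Fin d} (m : ℕ) (hN : 2 ^ (2 * m + 4) ≤ N) (S : Finset (Fin (m + 1)))
    (hS : ∀ a ∈ S, ∀ b ∈ S, (a : ℕ) < b → (a : ℕ) + 3 ≤ b)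
    (a : κ → Fin (m + 1)) (G : κ → (Fin d → ZMod N) → ℝ)
    (hG : ∀ s, Sp i (blk (2 * (a s : ℕ)) : Set ℤ) (fun x => ((G s x : ℝ) : ℂ)))
    (B : (κ → ℤˣ) → ℝ) (hB : ∀ e x, ∑ s, ((e s : ℤ) : ℝ) * G s x ≤ B e) (hB0 : ∀ e, 0 ≤ B e) :
    ∑ e : κ → ℤˣ, ∑ b ∈ S, ∑ x, |∑ s ∈ univ.filter (fun s => a s = b), ((e s : ℤ) : ℝ) * G s x| ≤
      12 * (N : ℝ) ^ d * ∑ e : κ → ℤˣ, B e := by
  have h1 : ∀ e : κ → ℤˣ, 2 ^ (m + 1) * ∑ b ∈ S, ∑ x,
      |∑ s ∈ univ.filter (fun s => a s = b), ((e s : ℤ) : ℝ) * G s x| ≤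
      12 * (N : ℝ) ^ d * ∑ z : Fin (m + 1) → ℤˣ, B (fun s => z (a s) * e s) := by
    intro e
    refine slices_fixed (i := i) m hN S hS
      (fun b x => ∑ s ∈ univ.filter (fun s => a s = b), ((e s : ℤ) : ℝ) * G s x) (fun b => ?_)
      (fun z => B (fun s => z (a s) * e s)) (fun z x => ?_) (fun z => hB0 _)
    · have h := Sp.sum (i := i) (A := (blk (2 * (b : ℕ)) : Set ℤ))
        (univ.filter (fun s => a s = b))
        (fun s x => (((e s : ℤ) : ℝ) : ℂ) * ((G s x : ℝ) : ℂ)) (fun s hs => by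
          have h0 := hG s
          rw [(mem_filter.mp hs).2] at h0
          exact h0.smul _)
      refine (congrArg (Sp i (blk (2 * (b : ℕ)) : Set ℤ)) ?_).mp h
      funext x
      push_cast
      rfl
    · refine le_trans (le_of_eq ?_) (hB (fun s => z (a s) * e s) x)
      have h2 : ∀ b, ((z b : ℤ) : ℝ) * ∑ s ∈ univ.filter (fun s => a s = b),
          ((e s : ℤ) : ℝ) * G s x = ∑ s ∈ univ.filter (fun s => a s = b),
          (((z (a s) * e s : ℤˣ) : ℤ) : ℝ) * G s x := by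
        intro b
        rw [Finset.mul_sum]
        refine Finset.sum_congr rfl fun s hs => ?_
        rw [(mem_filter.mp hs).2]
        push_cast
        ring
      rw [Finset.sum_congr rfl fun b _ => h2 b]
      exact Finset.sum_fiberwise univ a _
  have h3 := Finset.sum_le_sum fun (e : κ → ℤˣ) (_ : e ∈ univ) => h1 e
  have h3' : ∑ e : κ → ℤˣ, ∑ z : Fin (m + 1) → ℤˣ, B (fun s => z (a s) * e s) =
      ∑ z : Fin (m + 1) → ℤˣ, ∑ e : κ → ℤˣ, B (fun s => z (a s) * e s) := Finset.sum_comm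
  rw [← Finset.mul_sum, ← Finset.mul_sum, h3'] at h3
  have h4 : ∀ z : Fin (m + 1) → ℤˣ, ∑ e : κ → ℤˣ, B (fun s => z (a s) * e s) =
      ∑ e : κ → ℤˣ, B e := by
    intro z
    refine Fintype.sum_equiv (Equiv.mulLeft (fun s => z (a s))) _ _ fun e => ?_
    rfl
  rw [Finset.sum_congr rfl fun z _ => h4 z, Finset.sum_const, card_univ, nsmul_eq_mul,
    Fintype.card_fun] at h3
  have h5 : (Fintype.card ℤˣ : ℕ) = 2 := rfl
  rw [h5, Fintype.card_fin] at h3
  have h6 : (0 : ℝ) < 2 ^ (m + 1) := by positivity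
  push_cast at h3
  have h7 : 2 ^ (m + 1) * ∑ e : κ → ℤˣ, ∑ b ∈ S, ∑ x,
      |∑ s ∈ univ.filter (fun s => a s = b), ((e s : ℤ) : ℝ) * G s x| ≤
      2 ^ (m + 1) * (12 * (N : ℝ) ^ d * ∑ e : κ → ℤˣ, B e) := by
    linarith
  exact le_of_mul_le_mul_left h7 h6

end Pool.Agent.MP_a7b2aa_an.RS
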