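import Pool.Agent.Lib.MP_a7b2aa_an.T12

/-!
Spectral predicates in one coordinate and the kernel operators in one coordinate, for functions
on the finite grid `(ZMod N) ^ d`.
-/

set_option autoImplicit false

namespace Pool.Agent.MP_a7b2aa_an.RS

open Finset ZMod

variable {d N : ℕ} [NeZero N]

/-- `f` is a combination of characters of the coordinate `i` with frequencies in `A`, the
coefficients being independent of that coordinate. -/
def Sp (i : Fin d) (A : Set ℤ) (f : (Fin d → ZMod N) → ℂ) : Prop :=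
  ∃ (ι : Type) (_ : Fintype ι) (κ : ι → ℤ) (g : ι → (Fin d → ZMod N) → ℂ),
    (∀ j, κ j ∈ A) ∧ (∀ j x t, g j (Function.update x i t) = g j x) ∧
    ∀ x, f x = ∑ j, g j x * stdAddChar ((κ j : ZMod N) * x i)

theorem Sp.mono {i : Fin d} {A B : Set ℤ} (h : A ⊆ B) {f : (Fin d → ZMod N) → ℂ} (hf : Sp i A f) :
    Sp i B f := by
  obtain ⟨ι, hι, κ, g, h1, h2, h3⟩ := hf
  exact ⟨ι, hι, κ, g, fun j => h (h1 j), h2, h3⟩

theorem Sp.of_indep {i : Fin d} {f : (Fin d → ZMod N) → ℂ}
    (hf : ∀ x t, f (Function.update x i t) = f x) : Sp i {0} f :=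
  ⟨Unit, inferInstance, fun _ => 0, fun _ => f, fun _ => rfl, fun _ => hf, fun x => by simp⟩

theorem Sp.const (i : Fin d) (c : ℂ) : Sp (N := N) i {0} (fun _ => c) :=
  Sp.of_indep fun _ _ => rfl

theorem Sp.mul {i : Fin d} {A B : Set ℤ} {f g : (Fin d → ZMod N) → ℂ} (hf : Sp i A f)
    (hg : Sp i B g) {C : Set ℤ} (hC : ∀ a ∈ A, ∀ b ∈ B, a + b ∈ C) :
    Sp i C (fun x => f x * g x) := by
  obtain ⟨ι, hι, κ, u, h1, h2, h3⟩ := hf
  obtain ⟨ι', hι', κ', u', h1', h2', h3'⟩ := hg
  refine ⟨ι × ι', inferInstance, fun p => κ p.1 + κ' p.2, fun p x => u p.1 x * u' p.2 x,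
    fun p => hC _ (h1 _) _ (h1' _), fun p x t => by beta_reduce; rw [h2, h2'], fun x => ?_⟩
  beta_reduce
  rw [h3, h3', Finset.sum_mul_sum, ← Fintype.sum_prod_type']
  refine Finset.sum_congr rfl fun p _ => ?_
  push_cast
  rw [add_mul, AddChar.map_add_eq_mul]
  ring

theorem Sp.add {i : Fin d} {A : Set ℤ} {f g : (Fin d → ZMod N) → ℂ} (hf : Sp i A f)
    (hg : Sp i A g) : Sp i A (fun x => f x + g x) := by
  obtain ⟨ι, hι, κ, u, h1, h2, h3⟩ := hf
  obtain ⟨ι', hι', κ', u', h1', h2', h3'⟩ := hg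
  refine ⟨ι ⊕ ι', inferInstance, Sum.elim κ κ', Sum.elim u u', ?_, ?_, fun x => ?_⟩
  · rintro (j | j)
    · exact h1 j
    · exact h1' j
  · rintro (j | j) x t
    · exact h2 j x t
    · exact h2' j x t
  · beta_reduce
    rw [h3, h3', Fintype.sum_sum_type]
    rfl

theorem Sp.zero (i : Fin d) (A : Set ℤ) : Sp (N := N) i A (fun _ => 0) :=
  ⟨Empty, inferInstance, fun j => j.elim, fun j => j.elim, fun j => j.elim, fun j => j.elim,
    fun x => by simp⟩

theorem Sp.sum {i : Fin d} {A : Set ℤ} {α : Type*} (s : Finset α)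
    (f : α → (Fin d → ZMod N) → ℂ) (hf : ∀ a ∈ s, Sp i A (f a)) :
    Sp i A (fun x => ∑ a ∈ s, f a x) := by
  classical
  induction s using Finset.induction_on with
  | empty => simpa using Sp.zero i A
  | insert a s ha ih =>
    simp_rw [Finset.sum_insert ha]
    exact (hf a (mem_insert_self _ _)).add (ih fun b hb => hf b (mem_insert_of_mem hb))

theorem Sp.smul {i : Fin d} {A : Set ℤ} {f : (Fin d → ZMod N) → ℂ} (hf : Sp i A f) (c : ℂ) :
    Sp i A (fun x => c * f x) := by
  obtain ⟨ι, hι, κ, u, h1, h2, h3⟩ := hf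
  refine ⟨ι, hι, κ, fun j x => c * u j x, h1, fun j x t => by beta_reduce; rw [h2],
    fun x => ?_⟩
  beta_reduce
  rw [h3, Finset.mul_sum]
  refine Finset.sum_congr rfl fun j _ => ?_
  ring

theorem Sp.conj {i : Fin d} {A : Set ℤ} (hA : ∀ a ∈ A, -a ∈ A) {f : (Fin d → ZMod N) → ℂ}
    (hf : Sp i A f) : Sp i A (fun x => (starRingEnd ℂ) (f x)) := by
  obtain ⟨ι, hι, κ, u, h1, h2, h3⟩ := hf
  refine ⟨ι, hι, fun j => -κ j, fun j x => (starRingEnd ℂ) (u j x), fun j => hA _ (h1 j),
    fun j x t => by beta_reduce; rw [h2], fun x => ?_⟩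
  beta_reduce
  rw [h3, map_sum]
  refine Finset.sum_congr rfl fun j _ => ?_
  rw [map_mul, conj_psi]
  congr 2
  push_cast
  ring

/-- The real part. -/
theorem Sp.re {i : Fin d} {A : Set ℤ} (hA : ∀ a ∈ A, -a ∈ A) {f : (Fin d → ZMod N) → ℂ}
    (hf : Sp i A f) : Sp i A (fun x => (((f x).re : ℝ) : ℂ)) := by
  have h := ((hf.add (hf.conj hA)).smul (1 / 2))
  refine (congrArg (Sp i A) ?_).mp h
  funext x
  rw [Complex.add_conj]
  push_cast
  ring

theorem sum_update_avg (i : Fin d) (F : (Fin d → ZMod N) → ℂ) :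
    (N : ℂ) * ∑ x, F x = ∑ x : Fin d → ZMod N, ∑ y : ZMod N, F (Function.update x i y) := by
  rw [swap_sum i (fun _ _ x' => F x'), Finset.mul_sum]
  refine Finset.sum_congr rfl fun x _ => ?_
  rw [Finset.sum_const, card_univ, ZMod.card, nsmul_eq_mul]

/-- Vanishing of the mean. -/
theorem Sp.sum_eq_zero {i : Fin d} {A : Set ℤ} {f : (Fin d → ZMod N) → ℂ} (hf : Sp i A f)
    (hA : ∀ a ∈ A, a ≠ 0 ∧ a.natAbs < N) : ∑ x, f x = 0 := by
  obtain ⟨ι, hι, κ, g, h1, h2, h3⟩ := hf
  have hN : (N : ℂ) ≠ 0 := by exact_mod_cast NeZero.ne N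
  have h : (N : ℂ) * ∑ x, f x = 0 := by
    rw [sum_update_avg i]
    refine Finset.sum_eq_zero fun x _ => ?_
    simp_rw [h3, Function.update_self, h2]
    rw [Finset.sum_comm]
    refine Finset.sum_eq_zero fun j _ => ?_
    rw [← Finset.mul_sum, sum_psi, if_neg, mul_zero]
    rw [ZMod.intCast_zmod_eq_zero_iff_dvd]
    intro hdvd
    obtain ⟨ha, hb⟩ := hA _ (h1 j)
    apply ha
    refine Int.eq_zero_of_abs_lt_dvd hdvd ?_
    rw [Int.abs_eq_natAbs]
    exact_mod_cast hb
  exact (mul_eq_zero.mp h).resolve_left hN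

/-! ### The kernel operators -/

/-- Convolution with `v` in the coordinate `i`. -/
noncomputable def T (i : Fin d) (v : ZMod N → ℝ) (f : (Fin d → ZMod N) → ℝ)
    (x : Fin d → ZMod N) : ℝ :=
  (∑ z : ZMod N, v (x i - z) * f (Function.update x i z)) / N

theorem T_adj (i : Fin d) (v : ZMod N → ℝ) (hv : ∀ y, v (-y) = v y)
    (f h : (Fin d → ZMod N) → ℝ) :
    ∑ x, f x * T i v h x = ∑ x, T i v f x * h x := by
  unfold T
  simp_rw [mul_div_assoc', div_mul_eq_mul_div, ← Finset.sum_div, Finset.mul_sum, Finset.sum_mul]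
  congr 1
  have h1 := swap_sum i (fun a y (x' : Fin d → ZMod N) =>
    v (y - a) * (f (Function.update x' i y) * h x'))
  have h2 : ∀ x : Fin d → ZMod N, ∀ y : ZMod N,
      (fun a y (x' : Fin d → ZMod N) => v (y - a) * (f (Function.update x' i y) * h x'))
        (x i) y (Function.update x i y) = 0 ∨ True := fun _ _ => Or.inr trivial
  have h3 := swap_sum i (fun a y (x' : Fin d → ZMod N) =>
    v (a - y) * (f (Function.update x' i a) * h x'))
  simp only [Function.update_idem, Function.update_eq_self] at h3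
  calc ∑ x, ∑ z, f x * (v (x i - z) * h (Function.update x i z))
      = ∑ x : Fin d → ZMod N, ∑ y : ZMod N, v (x i - y) * (f x * h (Function.update x i y)) := by
        refine Finset.sum_congr rfl fun x _ => Finset.sum_congr rfl fun y _ => ?_
        ring
    _ = ∑ x : Fin d → ZMod N, ∑ y : ZMod N, v (y - x i) * (f (Function.update x i y) * h x) := h3
    _ = _ := by
        refine Finset.sum_congr rfl fun x _ => Finset.sum_congr rfl fun y _ => ?_
        rw [← hv (y - x i), neg_sub]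
        ring

theorem T_bound (i : Fin d) (v : ZMod N → ℝ) (M : ℝ) (hv : ∑ y : ZMod N, |v y| ≤ M * N)
    (f : (Fin d → ZMod N) → ℝ) (B : ℝ) (hf : ∀ x, |f x| ≤ B) (x : Fin d → ZMod N) :
    |T i v f x| ≤ M * B := by
  have hN : (0 : ℝ) < N := by exact_mod_cast Nat.pos_of_ne_zero (NeZero.ne N)
  have hB : 0 ≤ B := (abs_nonneg _).trans (hf x)
  unfold T
  rw [abs_div, abs_of_pos hN, div_le_iff₀ hN]
  refine (Finset.abs_sum_le_sum_abs _ _).trans ?_
  have h1 : ∀ z : ZMod N, |v (x i - z) * f (Function.update x i z)| ≤ |v (x i - z)| * B := by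
    intro z
    rw [abs_mul]
    exact mul_le_mul_of_nonneg_left (hf _) (abs_nonneg _)
  refine (Finset.sum_le_sum fun z _ => h1 z).trans ?_
  rw [← Finset.sum_mul]
  have h2 : ∑ z : ZMod N, |v (x i - z)| = ∑ y : ZMod N, |v y| :=
    Equiv.sum_comp (Equiv.subLeft (x i)) (fun y => |v y|)
  rw [h2]
  nlinarith

/-- The multiplier property. -/
theorem T_eigen {i : Fin d} {A : Set ℤ} {f : (Fin d → ZMod N) → ℝ}
    (hf : Sp i A (fun x => ((f x : ℝ) : ℂ))) (v : ZMod N → ℝ) (hv : ∀ y, v (-y) = v y) (l : ℝ)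
    (hA : ∀ a ∈ A, ∑ y : ZMod N, (v y : ℂ) * stdAddChar ((a : ZMod N) * y) = N * l)
    (x : Fin d → ZMod N) : T i v f x = l * f x := by
  obtain ⟨ι, hι, κ, g, h1, h2, h3'⟩ := hf
  have h3 : ∀ x, ((f x : ℝ) : ℂ) = ∑ j, g j x * stdAddChar ((κ j : ZMod N) * x i) := h3'
  have hN : (N : ℂ) ≠ 0 := by exact_mod_cast NeZero.ne N
  have h : ((T i v f x : ℝ) : ℂ) = ((l * f x : ℝ) : ℂ) := by
    unfold T
    push_cast
    rw [div_eq_iff hN]
    have e1 : ∀ z : ZMod N, (v (x i - z) : ℂ) * ((f (Function.update x i z) : ℝ) : ℂ) =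
        ∑ j, g j x * ((v (z - x i) : ℂ) * stdAddChar ((κ j : ZMod N) * z)) := by
      intro z
      have := h3 (Function.update x i z)
      rw [this, Finset.mul_sum, ← hv (x i - z), neg_sub]
      refine Finset.sum_congr rfl fun j _ => ?_
      rw [h2, Function.update_self]
      ring
    simp_rw [e1]
    rw [Finset.sum_comm]
    have e2 : ∀ j, ∑ z : ZMod N, g j x * ((v (z - x i) : ℂ) * stdAddChar ((κ j : ZMod N) * z)) =
        (N * l) * (g j x * stdAddChar ((κ j : ZMod N) * x i)) := by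
      intro j
      rw [← Finset.mul_sum, hat_shift v (κ j) (N * l) (hA _ (h1 j)) (x i)]
      ring
    simp_rw [e2]
    rw [← Finset.mul_sum, ← h3 x]
    ring
  exact_mod_cast h

/-- The spectrum of `T i v f` is contained in the support of the Fourier transform of `v`. -/
theorem T_spec (i : Fin d) (v : ZMod N → ℝ) (hv : ∀ y, v (-y) = v y) (f : (Fin d → ZMod N) → ℝ)
    (A : Set ℤ)
    (hA : ∀ k : ℤ, 2 * k.natAbs ≤ N → k ∉ A →
      ∑ y : ZMod N, (v y : ℂ) * stdAddChar ((k : ZMod N) * y) = 0) :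
    Sp i A (fun x => ((T i v f x : ℝ) : ℂ)) := by
  classical
  have hN : (N : ℂ) ≠ 0 := by exact_mod_cast NeZero.ne N
  refine ⟨{k : ZMod N // k.valMinAbs ∈ A}, inferInstance, fun k => k.1.valMinAbs,
    fun k x => (∑ y : ZMod N, (v y : ℂ) * stdAddChar (k.1 * y)) / N *
      ((∑ z : ZMod N, stdAddChar (-(k.1 * z)) * ((f (Function.update x i z) : ℝ) : ℂ)) / N),
    fun k => k.2, ?_, fun x => ?_⟩
  · intro k x t
    simp only [Function.update_idem]
  · simp only [ZMod.coe_valMinAbs]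
    have hinv : ∀ w : ZMod N, (v w : ℂ) =
        (∑ k : ZMod N, (∑ y : ZMod N, (v y : ℂ) * stdAddChar (k * y)) * stdAddChar (k * w)) / N := by
      intro w
      rw [eq_div_iff hN]
      have e1 : ∀ k : ZMod N, (∑ y : ZMod N, (v y : ℂ) * stdAddChar (k * y)) * stdAddChar (k * w) =
          ∑ y : ZMod N, (v y : ℂ) * stdAddChar ((y + w) * k) := by
        intro k
        rw [Finset.sum_mul]
        refine Finset.sum_congr rfl fun y _ => ?_
        rw [mul_assoc, ← AddChar.map_add_eq_mul]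
        congr 2
        ring
      simp_rw [e1]
      rw [Finset.sum_comm]
      simp_rw [← Finset.mul_sum, sum_psi]
      rw [Finset.sum_eq_single (-w)]
      · rw [if_pos (neg_add_cancel w), hv]
      · intro y _ hy
        rw [if_neg, mul_zero]
        intro h
        exact hy (eq_neg_of_add_eq_zero_left h)
      · intro h; exact absurd (mem_univ _) h
    have hzero : ∀ k : ZMod N, k.valMinAbs ∉ A →
        ∑ y : ZMod N, (v y : ℂ) * stdAddChar (k * y) = 0 := by
      intro k hk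
      have h1 := hA k.valMinAbs ?_ hk
      · simpa only [ZMod.coe_valMinAbs] using h1
      · have := ZMod.natAbs_valMinAbs_le k
        omega
    have hsub : ∀ F : ZMod N → ℂ, (∀ k, k.valMinAbs ∉ A → F k = 0) →
        ∑ k : {k : ZMod N // k.valMinAbs ∈ A}, F k.1 = ∑ k : ZMod N, F k := by
      intro F hF
      rw [← Finset.sum_subtype (univ.filter fun k : ZMod N => k.valMinAbs ∈ A) (by simp) F,
        Finset.sum_filter]
      refine Finset.sum_congr rfl fun k _ => ?_
      split_ifs with hk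
      · rfl
      · exact (hF k hk).symm
    rw [hsub (fun k => (∑ y : ZMod N, (v y : ℂ) * stdAddChar (k * y)) / N *
      ((∑ z : ZMod N, stdAddChar (-(k * z)) * ((f (Function.update x i z) : ℝ) : ℂ)) / N) *
        stdAddChar (k * x i)) (fun k hk => by
          beta_reduce; rw [hzero k hk, zero_div, zero_mul, zero_mul])]
    unfold T
    push_cast
    rw [div_eq_iff hN, Finset.sum_mul]
    have e2 : ∀ z : ZMod N, (v (x i - z) : ℂ) * ((f (Function.update x i z) : ℝ) : ℂ) =
        ∑ k : ZMod N, (∑ y : ZMod N, (v y : ℂ) * stdAddChar (k * y)) / N *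
          (stdAddChar (-(k * z)) * ((f (Function.update x i z) : ℝ) : ℂ)) *
            stdAddChar (k * x i) := by
      intro z
      rw [hinv (x i - z), div_mul_eq_mul_div, Finset.sum_mul, Finset.sum_div]
      refine Finset.sum_congr rfl fun k _ => ?_
      rw [mul_sub, sub_eq_add_neg, AddChar.map_add_eq_mul]
      ring
    rw [Finset.sum_congr rfl fun z _ => e2 z, Finset.sum_comm]
    refine Finset.sum_congr rfl fun k _ => ?_
    rw [← Finset.sum_mul, ← Finset.mul_sum]
    field_simp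

end Pool.Agent.MP_a7b2aa_an.RS
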